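import Pool.Agent.Lib.P65T.Inst
import Pool.Agent.Lib.P65.Gray
import Pool.Agent.Lib.P65.PolyB

/-!
The projections of one gated set system to `OrMCSP` and `AndMCSP`.
-/

namespace P65T

open P65

private theorem exists_testBit {n : ℕ} (x : Fin n → Bool) :
    ∃ k : Fin (2 ^ n), ∀ i : Fin n, k.1.testBit i.1 = x i :=
  ⟨⟨Nat.ofBits x, Nat.ofBits_lt_two_pow x⟩, fun i => Nat.testBit_ofBits_lt x i.1 i.2⟩

private theorem ttab_inj {n : ℕ} {f g : (Fin n → Bool) → Bool} (h : ttab f = ttab g) : f = g := by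
  have h1 := List.ofFn_injective h
  funext x
  obtain ⟨k, hk⟩ := exists_testBit x
  have h2 := congrFun h1 k
  have h3 : (fun i : Fin n => k.1.testBit i.1) = x := funext hk
  simpa [h3] using h2

private theorem bin_inj {l s t : ℕ} (hs : s < 2 ^ l) (ht : t < 2 ^ l) (h : bin l s = bin l t) :
    s = t := by
  have h1 := List.ofFn_injective h
  apply Nat.eq_of_testBit_eq
  intro i
  by_cases hi : i < l
  · exact congrFun h1 ⟨i, hi⟩
  · have e : 2 ^ l ≤ 2 ^ i := Nat.pow_le_pow_right (by norm_num) (not_lt.1 hi)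
    rw [Nat.testBit_lt_two_pow (lt_of_lt_of_le hs e), Nat.testBit_lt_two_pow (lt_of_lt_of_le ht e)]

private theorem decode {n s n' s' : ℕ} {f : (Fin n → Bool) → Bool} {f' : (Fin n' → Bool) → Bool}
    (hs : s < 2 ^ (n + 1)) (hs' : s' < 2 ^ (n' + 1))
    (he : ttab f ++ bin (n + 1) s = ttab f' ++ bin (n' + 1) s')
    (P : ∀ k : ℕ, ((Fin k → Bool) → Bool) → ℕ → Prop) (h : P n' f' s') : P n f s := by
  have hl := congrArg List.length he
  simp only [List.length_append, ttab, bin, List.length_ofFn] at hl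
  have hn : n = n' := by
    rcases lt_trichotomy n n' with h | h | h
    · have := Nat.pow_lt_pow_right (a := 2) (by norm_num) h
      omega
    · exact h
    · have := Nat.pow_lt_pow_right (a := 2) (by norm_num) h
      omega
  subst hn
  obtain ⟨h1, h2⟩ := List.append_inj he (by simp [ttab])
  rw [ttab_inj h1, bin_inj hs hs' h2]
  exact h

theorem mem_OrMCSP (G : ∀ n : ℕ, ((Fin n → Bool) → Bool) → Prop) {n s : ℕ}
    (f : (Fin n → Bool) → Bool) (hs : s < 2 ^ (n + 1)) :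
    ttab f ++ bin (n + 1) s ∈ OrMCSP G ↔ OrOf (G n) f s := by
  constructor
  · rintro ⟨n', s', f', hs', he, hx⟩
    exact decode hs hs' he (fun k f s => OrOf (G k) f s) hx
  · intro h
    exact ⟨n, s, f, hs, rfl, h⟩

theorem mem_AndMCSP (G : ∀ n : ℕ, ((Fin n → Bool) → Bool) → Prop) {n s : ℕ}
    (f : (Fin n → Bool) → Bool) (hs : s < 2 ^ (n + 1)) :
    ttab f ++ bin (n + 1) s ∈ AndMCSP G ↔ AndOf (G n) f s := by
  constructor
  · rintro ⟨n', s', f', hs', he, hx⟩
    exact decode hs hs' he (fun k f s => AndOf (G k) f s) hx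
  · intro h
    exact ⟨n, s, f, hs, rfl, h⟩

/-- The negated symbol. -/
def negS : PS → PS
  | .cst b => .cst (!b)
  | .lit i => .nlit i
  | .nlit i => .lit i

theorem negS_eval (x : List Bool) (p : PS) : (negS p).eval x = !(p.eval x) := by
  cases p <;> simp [negS, PS.eval]

private theorem arith1 {n m a b M : ℕ} (ha : 3 * (n+1) < a) (hb : 3 * (m+1) ≤ b)
    (hM : 2 ^ M = 16 * (a * b) ^ 2) : 4 * ((n+1) * (m+1)) < 2 ^ (M + 1) := by
  have h1 : (n+1) * (m+1) ≤ a * b := Nat.mul_le_mul (by omega) (by omega)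
  have h0 : 1 ≤ (n+1) * (m+1) := Nat.mul_pos (by omega) (by omega)
  have h2 : a * b ≤ (a * b) ^ 2 := Nat.le_self_pow (by norm_num) _
  rw [pow_succ, hM]
  omega

private theorem arith2 {n m a b M : ℕ} (ha : a ≤ 2 * (3 * (n + 1) + 1))
    (hb : b ≤ 2 * (3 * (m + 1))) (hM : 2 ^ M = 16 * (a * b) ^ 2) :
    2 ^ M + (M + 1) ≤ 10 ^ 5 * ((n+1) * (m+1)) ^ 2 := by
  have h1 : a * b ≤ 48 * ((n+1) * (m+1)) := by
    calc a * b ≤ (8 * (n+1)) * (6 * (m+1)) := Nat.mul_le_mul (by omega) (by omega)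
      _ = 48 * ((n+1) * (m+1)) := by ring
  have h2 : (a * b) ^ 2 ≤ 2304 * ((n+1) * (m+1)) ^ 2 := by
    calc (a * b) ^ 2 ≤ (48 * ((n+1) * (m+1))) ^ 2 := Nat.pow_le_pow_left h1 2
      _ = 2304 * ((n+1) * (m+1)) ^ 2 := by ring
  have h3 : M + 1 ≤ 2 ^ M := Nat.lt_two_pow_self
  omega

private theorem map_word {M : ℕ} (sym : Fin (2 ^ M) → PS) (s : ℕ) (x : List Bool)
    (g : (Fin M → Bool) → Bool)
    (h : ∀ k, (sym k).eval x = g (fun i => k.1.testBit i.1)) :
    (List.ofFn sym ++ (bin (M + 1) s).map PS.cst).map (PS.eval x) =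
      ttab g ++ bin (M + 1) s := by
  rw [List.map_append, List.map_ofFn, List.map_map]
  congr 1
  · rw [ttab]
    congr 1
    funext k
    exact h k
  · have h1 : (PS.eval x ∘ PS.cst) = id := by
      funext b
      rfl
    rw [h1, List.map_id]

theorem hs_projT (n m K : ℕ) (hK : K ≤ n + 1) (A : Fin (n+1) → Fin m → Bool)
    (hne : ∀ j, ∃ u, A u j = true) (G : Fin m → PS) :
    ∃ W W' : List PS, W.length ≤ 10 ^ 5 * ((n+1) * (m+1)) ^ 2 ∧
      W'.length ≤ 10 ^ 5 * ((n+1) * (m+1)) ^ 2 ∧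
      ∀ H : ∀ n : ℕ, ((Fin n → Bool) → Bool) → Prop, (∀ n g, H n g → IsUnate g) →
        ((∀ n g, IsStar g → H n g) → ∀ x : List Bool, (W.map (PS.eval x) ∈ OrMCSP H ↔
          ∃ U : Finset (Fin (n+1)), U.card ≤ K ∧
            ∀ j, (G j).eval x = true → ∃ u ∈ U, A u j = true)) ∧
        ((∀ n g, IsStar g → H n (bnot g)) → ∀ x : List Bool,
          (W'.map (PS.eval x) ∈ AndMCSP H ↔
          ∃ U : Finset (Fin (n+1)), U.card ≤ K ∧
            ∀ j, (G j).eval x = true → ∃ u ∈ U, A u j = true)) := by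
  obtain ⟨ρ, hρ1, hρ2⟩ := two_pow_between (3 * (n + 1) + 1) (by omega)
  obtain ⟨κ, hκ1, hκ2⟩ := two_pow_between (3 * (m + 1)) (by omega)
  obtain ⟨gr, hgr⟩ := gray_exists ρ
  obtain ⟨gc, hgc⟩ := gray_exists κ
  have hρ : 3 * (n + 1) < 2 ^ ρ := by omega
  obtain ⟨M, hMc⟩ : ∃ M, M = Fintype.card (Vb ρ κ) := ⟨_, rfl⟩
  have hMv : M = 2 * ρ + 2 * κ + 4 := by
    rw [hMc]
    simp only [Fintype.card_sum, Fintype.card_fin]
    ring
  have hM2 : 2 ^ M = 16 * (2 ^ ρ * 2 ^ κ) ^ 2 := by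
    rw [hMv, pow_add, pow_add, pow_mul', pow_mul']
    ring
  let e : Vb ρ κ ≃ Fin M := Fintype.equivFinOfCardEq hMc.symm
  have hs1 : siz n m A K < 2 ^ (M + 1) :=
    lt_of_le_of_lt (siz_le n m A K hK) (arith1 hρ hκ1 hM2)
  have hsym : ∀ k : Fin (2 ^ M), ∃ p : PS, ∀ x : List Bool,
      p.eval x = ff gr gc (DD n m A (fun j => (G j).eval x))
        (fun i => (fun b : Fin M => k.1.testBit b.1) (e i)) := by
    intro k
    rcases proj_ff gr gc hgr hgc hρ hκ1 A
      (fun i => (fun b : Fin M => k.1.testBit b.1) (e i)) with ⟨j, hj⟩ | ⟨b, hb⟩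
    · exact ⟨G j, fun x => (hj (fun j => (G j).eval x)).symm⟩
    · exact ⟨PS.cst b, fun x => (hb (fun j => (G j).eval x)).symm⟩
  choose sym hsym using hsym
  have hlen : ∀ sy : Fin (2 ^ M) → PS, (List.ofFn sy ++
      (bin (M + 1) (siz n m A K)).map PS.cst).length ≤ 10 ^ 5 * ((n+1) * (m+1)) ^ 2 := by
    intro sy
    rw [List.length_append, List.length_ofFn, List.length_map, bin, List.length_ofFn]
    exact arith2 hρ2 hκ2 hM2
  refine ⟨List.ofFn sym ++ (bin (M + 1) (siz n m A K)).map PS.cst,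
    List.ofFn (fun k => negS (sym k)) ++ (bin (M + 1) (siz n m A K)).map PS.cst,
    hlen _, hlen _, fun H hu => ⟨fun hs x => ?_, fun hs x => ?_⟩⟩
  · rw [map_word sym (siz n m A K) x (fun w : Fin M → Bool =>
      ff gr gc (DD n m A (fun j => (G j).eval x)) (fun i => w (e i))) (fun k => hsym k x)]
    rw [mem_OrMCSP H _ hs1]
    exact or_inst A gr gc hgr hgc hρ hκ1 hne e (H M) (hs M) (hu M) (fun j => (G j).eval x) K
  · rw [map_word (fun k => negS (sym k)) (siz n m A K) x (bnot (fun w : Fin M → Bool =>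
      ff gr gc (DD n m A (fun j => (G j).eval x)) (fun i => w (e i)))) (fun k => by
        rw [negS_eval, hsym k x]
        rfl)]
    rw [mem_AndMCSP H _ hs1]
    exact and_inst A gr gc hgr hgc hρ hκ1 hne e (H M) (hs M) (hu M) (fun j => (G j).eval x) K

end P65T
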