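import Pool.Agent.Lib.P65.CircDefs

/-!
# MP_65a708_lc: minimum circuit size for depth-2 circuits OR / AND of threshold gates

Basic definitions.
-/

namespace P65T

open P65

/-- `g` is unate: there is a point `c` such that moving coordinates of an accepted point towards
`c` gives accepted points. -/
def IsUnate {ι : Type} (g : (ι → Bool) → Bool) : Prop :=
  ∃ c : ι → Bool, ∀ x y : ι → Bool, (∀ i, y i = x i ∨ y i = c i) → g x = true → g y = true

/-- `g` is a star function: it accepts a point `c` and the points that differ from `c` in exactly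
one coordinate, if this coordinate belongs to `J`. -/
def IsStar {ι : Type} (g : (ι → Bool) → Bool) : Prop :=
  ∃ (c : ι → Bool) (J : Set ι), ∀ x, g x = true ↔
    x = c ∨ ∃ i ∈ J, x i ≠ c i ∧ ∀ j, j ≠ i → x j = c j

/-- `g` is a threshold gate with real weights. -/
def IsThr {ι : Type} [Fintype ι] (g : (ι → Bool) → Bool) : Prop :=
  ∃ (w : ι → ℝ) (t : ℝ), ∀ x, g x = true ↔ t ≤ ∑ i, if x i = true then w i else 0

/-- `g` is a threshold gate with integer weights of absolute value at most 2. -/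
def IsThr2 {ι : Type} [Fintype ι] (g : (ι → Bool) → Bool) : Prop :=
  ∃ (w : ι → ℤ) (t : ℤ), (∀ i, |w i| ≤ 2) ∧
    ∀ x, g x = true ↔ t ≤ ∑ i, if x i = true then w i else 0

/-- The negation of a Boolean function. -/
def bnot {ι : Type} (g : (ι → Bool) → Bool) : (ι → Bool) → Bool := fun x => !(g x)

/-- `f` is the OR of at most `s` gates of the class `G`. -/
def OrOf {ι : Type} (G : ((ι → Bool) → Bool) → Prop) (f : (ι → Bool) → Bool) (s : ℕ) : Prop :=
  ∃ gs : List ((ι → Bool) → Bool), gs.length ≤ s ∧ (∀ g ∈ gs, G g) ∧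
    ∀ x, (f x = true ↔ ∃ g ∈ gs, g x = true)

/-- `f` is the AND of at most `s` gates of the class `G`. -/
def AndOf {ι : Type} (G : ((ι → Bool) → Bool) → Prop) (f : (ι → Bool) → Bool) (s : ℕ) : Prop :=
  ∃ gs : List ((ι → Bool) → Bool), gs.length ≤ s ∧ (∀ g ∈ gs, G g) ∧
    ∀ x, (f x = true ↔ ∀ g ∈ gs, g x = true)

/-- The minimum circuit size problem for circuits OR of gates of the class `G`: the truth table
of a function `f` of `n` variables followed by a number `s < 2 ^ (n + 1)` written with `n + 1`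
bits, such that `f` is the OR of at most `s` gates of the class. -/
def OrMCSP (G : ∀ n : ℕ, ((Fin n → Bool) → Bool) → Prop) : Set (List Bool) :=
  {w | ∃ (n s : ℕ) (f : (Fin n → Bool) → Bool), s < 2 ^ (n + 1) ∧
    w = ttab f ++ bin (n + 1) s ∧ OrOf (G n) f s}

/-- The same for circuits AND of gates of the class `G`. -/
def AndMCSP (G : ∀ n : ℕ, ((Fin n → Bool) → Bool) → Prop) : Set (List Bool) :=
  {w | ∃ (n s : ℕ) (f : (Fin n → Bool) → Bool), s < 2 ^ (n + 1) ∧
    w = ttab f ++ bin (n + 1) s ∧ AndOf (G n) f s}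

/-- `f` accepts no subcube of dimension at least 2. -/
def NoSq {ι : Type} (f : (ι → Bool) → Bool) : Prop :=
  ∀ c x : ι → Bool, (∀ y, (∀ i, y i = x i ∨ y i = c i) → f y = true) → x = c ∨ Adj1 x c

/-- The accepted points of `f` are dominated by at most `s` of them. -/
def Dom {ι : Type} (f : (ι → Bool) → Bool) (s : ℕ) : Prop :=
  ∃ Z : Finset (ι → Bool), Z.card ≤ s ∧ (∀ z ∈ Z, f z = true) ∧
    ∀ x, f x = true → ∃ z ∈ Z, x = z ∨ Adj1 x z

/-! ### The grid -/

/-- Points of the grid: column position, row position, level. -/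
abbrev GP := ℕ × ℕ × ℕ

/-- Adjacency in the grid. -/
def GAdj (p q : GP) : Prop :=
  ((p.1 = q.1 + 1 ∨ q.1 = p.1 + 1) ∧ p.2.1 = q.2.1 ∧ p.2.2 = q.2.2) ∨
  (p.1 = q.1 ∧ (p.2.1 = q.2.1 + 1 ∨ q.2.1 = p.2.1 + 1) ∧ p.2.2 = q.2.2) ∨
  (p.1 = q.1 ∧ p.2.1 = q.2.1 ∧ (p.2.2 = q.2.2 + 1 ∨ q.2.2 = p.2.2 + 1))

/-- The point set: `n+1` row wires on level 0, `m` column wires on level 4 (the first point of a
column wire is there iff `γ j`), and connectors on the levels 1, 2, 3 where `A u j`. -/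
def DD (n m : ℕ) (A : Fin (n+1) → Fin m → Bool) (γ : Fin m → Bool) (p : GP) : Prop :=
  (∃ u : Fin (n+1), p.1 = 3 * (u.1 + 1) ∧ p.2.1 < 3 * (m + 1) ∧ p.2.2 = 0) ∨
  (∃ j : Fin m, p.1 ≤ 3 * (n + 1) ∧ p.2.1 = 3 * j.1 + 2 ∧ p.2.2 = 4 ∧ (p.1 = 0 → γ j = true)) ∨
  (∃ (u : Fin (n+1)) (j : Fin m), A u j = true ∧ p.1 = 3 * (u.1 + 1) ∧ p.2.1 = 3 * j.1 + 2 ∧
    1 ≤ p.2.2 ∧ p.2.2 ≤ 3)

/-- The number of connectors. -/
def nA (n m : ℕ) (A : Fin (n+1) → Fin m → Bool) : ℕ :=
  (Finset.univ.filter fun p : Fin (n+1) × Fin m => A p.1 p.2 = true).card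

/-- Domination of the point set `D` by at most `s` of its points. -/
def GDom (D : GP → Prop) (s : ℕ) : Prop :=
  ∃ Z : Finset GP, Z.card ≤ s ∧ (∀ z ∈ Z, D z) ∧ ∀ p, D p → ∃ z ∈ Z, p = z ∨ GAdj p z

/-- Hitting set of the active columns. -/
def Hit (n m : ℕ) (A : Fin (n+1) → Fin m → Bool) (γ : Fin m → Bool) (K : ℕ) : Prop :=
  ∃ U : Finset (Fin (n+1)), U.card ≤ K ∧ ∀ j, γ j = true → ∃ u ∈ U, A u j = true

/-! ### The codes -/

/-- The variables. -/
abbrev Vb (ρ κ : ℕ) := (Fin ρ ⊕ Fin ρ) ⊕ (Fin κ ⊕ Fin κ) ⊕ Fin 4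

/-- The doubled Gray code, an induced path of the cube. -/
def sn {L : ℕ} (g : ℕ → Fin L → Bool) (i : ℕ) : Fin L ⊕ Fin L → Bool :=
  Sum.elim (g ((i + 1) / 2)) (g (i / 2))

/-- The code of the level. -/
def lv (k : ℕ) : Fin 4 → Bool := fun i => decide (i.1 < k)

/-- The code of a grid point. -/
def cd {ρ κ : ℕ} (gr : ℕ → Fin ρ → Bool) (gc : ℕ → Fin κ → Bool) (p : GP) : Vb ρ κ → Bool :=
  Sum.elim (sn gr p.1) (Sum.elim (sn gc p.2.1) (lv p.2.2))

open Classical in
/-- The Boolean function: the set of the codes of the points of `D`. -/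
noncomputable def ff {ρ κ : ℕ} (gr : ℕ → Fin ρ → Bool) (gc : ℕ → Fin κ → Bool) (D : GP → Prop)
    (w : Vb ρ κ → Bool) : Bool := decide (∃ p, D p ∧ cd gr gc p = w)

end P65T
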