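import Pool.Agent.Lib.P65T.Defs

/-!
The doubled Gray code is an induced path; the codes of the grid points are adjacent in the cube
iff the grid points are adjacent.
-/

namespace P65T

open P65

theorem adj_symm' {ι : Type} {x y : ι → Bool} (h : Adj1 x y) : Adj1 y x := by
  obtain ⟨i, h1, h2⟩ := h
  exact ⟨i, h1.symm, fun j hj => (h2 j hj).symm⟩

theorem adj_irrefl {ι : Type} {x : ι → Bool} (h : Adj1 x x) : False := by
  obtain ⟨i, h1, -⟩ := h
  exact h1 rfl

theorem elim_eq {α β : Type} {a a' : α → Bool} {b b' : β → Bool} :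
    Sum.elim a b = Sum.elim a' b' ↔ a = a' ∧ b = b' := by
  constructor
  · intro h
    exact ⟨funext fun i => congrFun h (Sum.inl i), funext fun i => congrFun h (Sum.inr i)⟩
  · rintro ⟨rfl, rfl⟩
    rfl

theorem adj_elim {α β : Type} {a a' : α → Bool} {b b' : β → Bool} :
    Adj1 (Sum.elim a b) (Sum.elim a' b') ↔ (Adj1 a a' ∧ b = b') ∨ (a = a' ∧ Adj1 b b') := by
  constructor
  · rintro ⟨i | i, h1, h2⟩
    · left
      refine ⟨⟨i, h1, fun j hj => h2 (Sum.inl j) (by simpa using hj)⟩, funext fun j =>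
        h2 (Sum.inr j) (by simp)⟩
    · right
      refine ⟨funext fun j => h2 (Sum.inl j) (by simp),
        ⟨i, h1, fun j hj => h2 (Sum.inr j) (by simpa using hj)⟩⟩
  · rintro (⟨⟨i, h1, h2⟩, rfl⟩ | ⟨rfl, i, h1, h2⟩)
    · refine ⟨Sum.inl i, h1, ?_⟩
      rintro (j | j) hj
      · exact h2 j (fun h => hj (by rw [h]))
      · rfl
    · refine ⟨Sum.inr i, h1, ?_⟩
      rintro (j | j) hj
      · rfl
      · exact h2 j (fun h => hj (by rw [h]))

variable {L : ℕ} {g : ℕ → Fin L → Bool}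

theorem sn_inj (hg : IsGray L g) {i j : ℕ} (hi : i < 2 ^ L) (hj : j < 2 ^ L)
    (h : sn g i = sn g j) : i = j := by
  obtain ⟨h1, h2⟩ := elim_eq.1 h
  have h3 := hg.1 _ _ (by omega) (by omega) h1
  have h4 := hg.1 _ _ (by omega) (by omega) h2
  omega

theorem sn_adj (hg : IsGray L g) {i j : ℕ} (hi : i < 2 ^ L) (hj : j < 2 ^ L) :
    Adj1 (sn g i) (sn g j) ↔ i = j + 1 ∨ j = i + 1 := by
  have key : ∀ k, k + 1 < 2 ^ L → Adj1 (sn g k) (sn g (k + 1)) := by
    intro k hk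
    unfold sn
    rw [adj_elim]
    rcases Nat.even_or_odd' k with ⟨c, hc | hc⟩
    · left
      have e1 : (k + 1) / 2 = c := by omega
      have e2 : (k + 1 + 1) / 2 = c + 1 := by omega
      have e3 : k / 2 = c := by omega
      rw [e1, e2, e3]
      exact ⟨hg.2 c (by omega), rfl⟩
    · right
      have e1 : (k + 1) / 2 = c + 1 := by omega
      have e2 : (k + 1 + 1) / 2 = c + 1 := by omega
      have e3 : k / 2 = c := by omega
      rw [e1, e2, e3]
      exact ⟨rfl, hg.2 c (by omega)⟩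
  constructor
  · intro h
    unfold sn at h
    rcases adj_elim.1 h with ⟨h1, h2⟩ | ⟨h1, h2⟩
    · have h3 := hg.1 _ _ (by omega) (by omega) h2
      have h4 : (i + 1) / 2 ≠ (j + 1) / 2 := fun e => by
        rw [e] at h1
        exact adj_irrefl h1
      omega
    · have h3 := hg.1 _ _ (by omega) (by omega) h1
      have h4 : i / 2 ≠ j / 2 := fun e => by
        rw [e] at h2
        exact adj_irrefl h2
      omega
  · rintro (h | h)
    · subst h
      exact adj_symm' (key j hi)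
    · subst h
      exact key i hj

theorem lv_inj {i j : ℕ} (hi : i ≤ 4) (hj : j ≤ 4) (h : lv i = lv j) : i = j := by
  have key : ∀ a b : ℕ, a < b → b ≤ 4 → lv a ≠ lv b := by
    intro a b hab hb he
    have h1 := congrFun he ⟨a, by omega⟩
    simp [lv, hab] at h1
  rcases lt_trichotomy i j with h1 | h1 | h1
  · exact absurd h (key i j h1 hj)
  · exact h1
  · exact absurd h.symm (key j i h1 hi)

theorem lv_adj {i j : ℕ} (hi : i ≤ 4) (hj : j ≤ 4) :
    Adj1 (lv i) (lv j) ↔ i = j + 1 ∨ j = i + 1 := by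
  have key : ∀ a, a + 1 ≤ 4 → Adj1 (lv a) (lv (a + 1)) := by
    intro a ha
    refine ⟨⟨a, by omega⟩, ?_, ?_⟩
    · simp [lv]
    · intro j hj
      have h1 : j.1 ≠ a := fun h => hj (Fin.ext h)
      unfold lv
      by_cases h2 : j.1 < a
      · rw [decide_eq_true h2, decide_eq_true (by omega)]
      · rw [decide_eq_false h2, decide_eq_false (by omega)]
  have key2 : ∀ a b : ℕ, a + 2 ≤ b → b ≤ 4 → ¬ Adj1 (lv a) (lv b) := by
    rintro a b hab hb ⟨i, h1, h2⟩
    have e1 : ∀ k : Fin 4, a ≤ k.1 → k.1 < b → lv a k ≠ lv b k := by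
      intro k hk1 hk2
      unfold lv
      rw [decide_eq_false (by omega), decide_eq_true hk2]
      simp
    have h3 : (⟨a, by omega⟩ : Fin 4) = i := by
      by_contra hcon
      exact e1 ⟨a, by omega⟩ (le_refl _) (by simp; omega) (h2 _ hcon)
    have h4 : (⟨a + 1, by omega⟩ : Fin 4) = i := by
      by_contra hcon
      exact e1 ⟨a + 1, by omega⟩ (by simp) (by simp; omega) (h2 _ hcon)
    have h5 := congrArg Fin.val (h3.trans h4.symm)
    simp at h5
  constructor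
  · intro h
    by_contra hcon
    have hne : i ≠ j := fun e => by
      rw [e] at h
      exact adj_irrefl h
    rcases Nat.lt_or_gt_of_ne hne with h1 | h1
    · exact key2 i j (by omega) hj h
    · exact key2 j i (by omega) hi (adj_symm' h)
  · rintro (h | h)
    · subst h
      exact adj_symm' (key j hi)
    · subst h
      exact key i hj

variable {ρ κ : ℕ} {gr : ℕ → Fin ρ → Bool} {gc : ℕ → Fin κ → Bool}

/-- The points that have codes. -/
def Bd (ρ κ : ℕ) (p : GP) : Prop := p.1 < 2 ^ ρ ∧ p.2.1 < 2 ^ κ ∧ p.2.2 ≤ 4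

theorem cd_inj (hgr : IsGray ρ gr) (hgc : IsGray κ gc) {p q : GP} (hp : Bd ρ κ p) (hq : Bd ρ κ q)
    (h : cd gr gc p = cd gr gc q) : p = q := by
  obtain ⟨h1, h2⟩ := elim_eq.1 h
  obtain ⟨h3, h4⟩ := elim_eq.1 h2
  exact Prod.ext (sn_inj hgr hp.1 hq.1 h1)
    (Prod.ext (sn_inj hgc hp.2.1 hq.2.1 h3) (lv_inj hp.2.2 hq.2.2 h4))

theorem cd_adj (hgr : IsGray ρ gr) (hgc : IsGray κ gc) {p q : GP} (hp : Bd ρ κ p) (hq : Bd ρ κ q) :
    Adj1 (cd gr gc p) (cd gr gc q) ↔ GAdj p q := by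
  unfold cd
  rw [adj_elim, adj_elim, sn_adj hgr hp.1 hq.1, sn_adj hgc hp.2.1 hq.2.1, lv_adj hp.2.2 hq.2.2,
    elim_eq]
  unfold GAdj
  have e1 : sn gr p.1 = sn gr q.1 ↔ p.1 = q.1 :=
    ⟨fun h => sn_inj hgr hp.1 hq.1 h, fun h => by rw [h]⟩
  have e2 : sn gc p.2.1 = sn gc q.2.1 ↔ p.2.1 = q.2.1 :=
    ⟨fun h => sn_inj hgc hp.2.1 hq.2.1 h, fun h => by rw [h]⟩
  have e3 : lv p.2.2 = lv q.2.2 ↔ p.2.2 = q.2.2 :=
    ⟨fun h => lv_inj hp.2.2 hq.2.2 h, fun h => by rw [h]⟩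
  rw [e1, e2, e3]
  tauto

theorem dd_bd {n m : ℕ} {A : Fin (n+1) → Fin m → Bool} {γ : Fin m → Bool}
    (hρ : 3 * (n + 1) < 2 ^ ρ) (hκ : 3 * (m + 1) ≤ 2 ^ κ) {p : GP} (h : DD n m A γ p) :
    Bd ρ κ p := by
  unfold Bd
  rcases h with ⟨u, h1, h2, h3⟩ | ⟨j, h1, h2, h3, -⟩ | ⟨u, j, -, h1, h2, h3, h4⟩
  · have := u.2
    refine ⟨by omega, by omega, by omega⟩
  · have := j.2
    refine ⟨by omega, by omega, by omega⟩
  · have := u.2
    have := j.2
    refine ⟨by omega, by omega, by omega⟩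

end P65T
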