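import Pool.Agent.Lib.P65T.HSProj
import Pool.Agent.Lib.P65K.Final

/-!
Assembly.
-/

namespace P65T

open P65

theorem npPoly_projT (L : Set (List Bool)) (hL : NPpoly L) :
    ∃ d : ℕ, ∀ m, 1 ≤ m → ∃ W W' : List PS, W.length ≤ m ^ d + d ∧ W'.length ≤ m ^ d + d ∧
      ∀ H : ∀ n : ℕ, ((Fin n → Bool) → Bool) → Prop, (∀ n g, H n g → IsUnate g) →
        ((∀ n g, IsStar g → H n g) → ∀ x : List Bool, x.length = m →
          (W.map (PS.eval x) ∈ OrMCSP H ↔ x ∈ L)) ∧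
        ((∀ n g, IsStar g → H n (bnot g)) → ∀ x : List Bool, x.length = m →
          (W'.map (PS.eval x) ∈ AndMCSP H ↔ x ∈ L)) := by
  obtain ⟨d, hd⟩ := hL
  obtain ⟨d', hd'⟩ := poly_bound d (10 ^ 5 * 25 ^ 2) 4
  refine ⟨d', fun m hm => ?_⟩
  obtain ⟨C, k, hC, hk, hno, hx⟩ := hd m hm
  obtain ⟨Φ, hΦl, hΦ, hΦx⟩ := tseitin m k C hno
  obtain ⟨A, G, hne, hAG⟩ := cnf_hs (C.length + k + 1) (by omega) Φ hΦ
  obtain ⟨W, W', hW, hW', hWx⟩ := hs_projT (2 * (C.length + k + 1) - 1)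
    (C.length + k + 1 + Φ.length) (C.length + k + 1) (by omega) A hne G
  have hb : 10 ^ 5 * ((2 * (C.length + k + 1) - 1 + 1) * (C.length + k + 1 + Φ.length + 1)) ^ 2 ≤
      m ^ d' + d' := by
    refine le_trans ?_ (hd' m hm)
    have hCl : C.length ≤ m ^ d + d := le_trans (FinalKAux.length_le_csize C) hC
    generalize m ^ d + d = t at hCl hk
    have h1 : 2 * (C.length + k + 1) - 1 + 1 ≤ 5 * (t + 1) := by omega
    have h2 : C.length + k + 1 + Φ.length + 1 ≤ 5 * (t + 1) := by omega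
    calc 10 ^ 5 * ((2 * (C.length + k + 1) - 1 + 1) * (C.length + k + 1 + Φ.length + 1)) ^ 2
        ≤ 10 ^ 5 * ((5 * (t + 1)) * (5 * (t + 1))) ^ 2 :=
          Nat.mul_le_mul_left _ (Nat.pow_le_pow_left (Nat.mul_le_mul h1 h2) 2)
      _ = 10 ^ 5 * 25 ^ 2 * (t + 1) ^ 4 := by ring
  refine ⟨W, W', hW.trans hb, hW'.trans hb, fun H hu => ⟨fun hs x hxm => ?_, fun hs x hxm => ?_⟩⟩
  · rw [(hWx H hu).1 hs x, ← hAG x, ← hΦx x hxm, hx x hxm]
  · rw [(hWx H hu).2 hs x, ← hAG x, ← hΦx x hxm, hx x hxm]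

end P65T
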