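import Pool.Agent.Lib.P65T.Code

/-!
The point set of the crossbar contains no square, so the Boolean function accepts no subcube of
dimension 2; domination in the cube is domination in the grid.
-/

namespace P65T

open P65

theorem ff_iff {ρ κ : ℕ} {gr : ℕ → Fin ρ → Bool} {gc : ℕ → Fin κ → Bool} {D : GP → Prop}
    {w : Vb ρ κ → Bool} : ff gr gc D w = true ↔ ∃ p, D p ∧ cd gr gc p = w := by
  unfold ff
  exact @decide_eq_true_iff _ (Classical.propDecidable _)

theorem dd_lin {n m : ℕ} {A : Fin (n+1) → Fin m → Bool} {γ : Fin m → Bool} {p : GP}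
    (h : DD n m A γ p) :
    (p.2.2 < 4 → p.1 % 3 = 0) ∧ (0 < p.2.2 → p.2.1 % 3 = 2) ∧ p.2.2 ≤ 4 := by
  rcases h with ⟨u, h1, h2, h3⟩ | ⟨j, h1, h2, h3, -⟩ | ⟨u, j, -, h1, h2, h3, h4⟩
  · refine ⟨by omega, by omega, by omega⟩
  · refine ⟨by omega, by omega, by omega⟩
  · refine ⟨by omega, by omega, by omega⟩

private theorem gtype {n m : ℕ} {A : Fin (n+1) → Fin m → Bool} {γ : Fin m → Bool} {p q : GP}
    (hp : DD n m A γ p) (hq : DD n m A γ q) (h : GAdj p q) :
    ((p.1 = q.1 + 1 ∨ q.1 = p.1 + 1) ∧ p.2.1 = q.2.1 ∧ 4 = p.2.2 ∧ p.2.2 = q.2.2) ∨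
    (p.1 = q.1 ∧ (p.2.1 = q.2.1 + 1 ∨ q.2.1 = p.2.1 + 1) ∧ p.2.2 = 0 ∧ q.2.2 = 0) ∨
    (p.1 = q.1 ∧ p.2.1 = q.2.1 ∧ (p.2.2 = q.2.2 + 1 ∨ q.2.2 = p.2.2 + 1) ∧ p.2.2 ≤ 4 ∧
      q.2.2 ≤ 4) := by
  have h1 := dd_lin hp
  have h2 := dd_lin hq
  have g1 := h1.2.2
  have g2 := h2.2.2
  rcases h with ⟨h3, h4, h5⟩ | ⟨h3, h4, h5⟩ | ⟨h3, h4, h5⟩
  · left
    refine ⟨h3, h4, ?_, h5⟩
    by_contra hcon
    have h6 := h1.1 (by omega)
    have h7 := h2.1 (by omega)
    omega
  · right; left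
    refine ⟨h3, h4, ?_, ?_⟩
    · by_contra hcon
      have h6 := h1.2.1 (by omega)
      have h7 := h2.2.1 (by omega)
      omega
    · by_contra hcon
      have h6 := h1.2.1 (by omega)
      have h7 := h2.2.1 (by omega)
      omega
  · right; right
    exact ⟨h3, h4, h5, g1, g2⟩

private theorem no_square {n m : ℕ} {A : Fin (n+1) → Fin m → Bool} {γ : Fin m → Bool}
    {p0 p1 p2 p3 : GP} (h0 : DD n m A γ p0) (h1 : DD n m A γ p1) (h2 : DD n m A γ p2)
    (h3 : DD n m A γ p3) (a1 : GAdj p0 p1) (a2 : GAdj p0 p2) (a3 : GAdj p1 p3)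
    (a4 : GAdj p2 p3) (n1 : p1 ≠ p2) (n2 : p0 ≠ p3) : False := by
  have n1' : ¬ (p1.1 = p2.1 ∧ p1.2.1 = p2.2.1 ∧ p1.2.2 = p2.2.2) := fun h =>
    n1 (Prod.ext h.1 (Prod.ext h.2.1 h.2.2))
  have n2' : ¬ (p0.1 = p3.1 ∧ p0.2.1 = p3.2.1 ∧ p0.2.2 = p3.2.2) := fun h =>
    n2 (Prod.ext h.1 (Prod.ext h.2.1 h.2.2))
  have t1 := gtype h0 h1 a1
  have t2 := gtype h0 h2 a2
  have t3 := gtype h1 h3 a3
  have t4 := gtype h2 h3 a4
  clear h0 h1 h2 h3 a1 a2 a3 a4 n1 n2
  obtain ⟨x0, y0, z0⟩ := p0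
  obtain ⟨x1, y1, z1⟩ := p1
  obtain ⟨x2, y2, z2⟩ := p2
  obtain ⟨x3, y3, z3⟩ := p3
  simp only at t1 t2 t3 t4 n1' n2'
  rcases t1 with t1 | t1 | t1 <;> rcases t2 with t2 | t2 | t2 <;>
    rcases t3 with t3 | t3 | t3 <;> rcases t4 with t4 | t4 | t4 <;> omega

variable {ρ κ n m : ℕ} {gr : ℕ → Fin ρ → Bool} {gc : ℕ → Fin κ → Bool}
  {A : Fin (n+1) → Fin m → Bool} {γ : Fin m → Bool}

theorem noSq_ff (hgr : IsGray ρ gr) (hgc : IsGray κ gc) (hρ : 3 * (n + 1) < 2 ^ ρ)
    (hκ : 3 * (m + 1) ≤ 2 ^ κ) : NoSq (ff gr gc (DD n m A γ)) := by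
  intro c x hall
  by_contra hcon
  rw [not_or] at hcon
  obtain ⟨hne, hadj⟩ := hcon
  obtain ⟨i, hi⟩ : ∃ i, x i ≠ c i := by
    by_contra h
    simp only [not_exists, not_not] at h
    exact hne (funext h)
  obtain ⟨j, hji, hj⟩ : ∃ j, j ≠ i ∧ x j ≠ c j := by
    by_contra h
    simp only [not_exists, not_and, not_not] at h
    exact hadj ⟨i, hi, h⟩
  have f0 := hall c (fun k => Or.inr rfl)
  have f1 := hall (Function.update c i (x i)) (fun k => by
    by_cases h : k = i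
    · subst h
      left
      rw [Function.update_self]
    · right
      rw [Function.update_of_ne h])
  have f2 := hall (Function.update c j (x j)) (fun k => by
    by_cases h : k = j
    · subst h
      left
      rw [Function.update_self]
    · right
      rw [Function.update_of_ne h])
  have f3 := hall (Function.update (Function.update c i (x i)) j (x j)) (fun k => by
    by_cases h : k = j
    · subst h
      left
      rw [Function.update_self]
    · rw [Function.update_of_ne h]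
      by_cases h' : k = i
      · subst h'
        left
        rw [Function.update_self]
      · right
        rw [Function.update_of_ne h'])
  obtain ⟨p0, d0, e0⟩ := ff_iff.1 f0
  obtain ⟨p1, d1, e1⟩ := ff_iff.1 f1
  obtain ⟨p2, d2, e2⟩ := ff_iff.1 f2
  obtain ⟨p3, d3, e3⟩ := ff_iff.1 f3
  have b0 := dd_bd hρ hκ d0
  have b1 := dd_bd hρ hκ d1
  have b2 := dd_bd hρ hκ d2
  have b3 := dd_bd hρ hκ d3
  refine no_square d0 d1 d2 d3 ((cd_adj hgr hgc b0 b1).1 ?_) ((cd_adj hgr hgc b0 b2).1 ?_)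
    ((cd_adj hgr hgc b1 b3).1 ?_) ((cd_adj hgr hgc b2 b3).1 ?_) ?_ ?_
  · rw [e0, e1]
    refine ⟨i, ?_, fun k hk => ?_⟩
    · rw [Function.update_self]
      exact hi.symm
    · rw [Function.update_of_ne hk]
  · rw [e0, e2]
    refine ⟨j, ?_, fun k hk => ?_⟩
    · rw [Function.update_self]
      exact hj.symm
    · rw [Function.update_of_ne hk]
  · rw [e1, e3]
    refine ⟨j, ?_, fun k hk => ?_⟩
    · rw [Function.update_self, Function.update_of_ne hji]
      exact hj.symm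
    · rw [Function.update_of_ne hk]
  · rw [e2, e3]
    refine ⟨i, ?_, fun k hk => ?_⟩
    · rw [Function.update_of_ne (Ne.symm hji), Function.update_of_ne (Ne.symm hji),
        Function.update_self]
      exact hi.symm
    · by_cases h : k = j
      · subst h
        rw [Function.update_self, Function.update_self]
      · rw [Function.update_of_ne h, Function.update_of_ne h, Function.update_of_ne hk]
  · intro h
    have h1 : Function.update c i (x i) i = Function.update c j (x j) i := by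
      rw [← e1, ← e2, h]
    rw [Function.update_self, Function.update_of_ne (Ne.symm hji)] at h1
    exact hi h1
  · intro h
    have h1 : c j = Function.update (Function.update c i (x i)) j (x j) j := by
      rw [← e3, ← h, e0]
    rw [Function.update_self] at h1
    exact hj h1.symm

theorem dom_iff (hgr : IsGray ρ gr) (hgc : IsGray κ gc) (hρ : 3 * (n + 1) < 2 ^ ρ)
    (hκ : 3 * (m + 1) ≤ 2 ^ κ) (s : ℕ) :
    Dom (ff gr gc (DD n m A γ)) s ↔ GDom (DD n m A γ) s := by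
  classical
  constructor
  · rintro ⟨Z, hZ, hfZ, hdom⟩
    have hdec : ∀ z : Vb ρ κ → Bool, ∃ p : GP, z ∈ Z → DD n m A γ p ∧ cd gr gc p = z := by
      intro z
      by_cases hz : z ∈ Z
      · obtain ⟨p, hp⟩ := ff_iff.1 (hfZ z hz)
        exact ⟨p, fun _ => hp⟩
      · exact ⟨(0, 0, 0), fun h => absurd h hz⟩
    choose dec hdec using hdec
    refine ⟨Z.image dec, Finset.card_image_le.trans hZ, ?_, ?_⟩
    · intro p hp
      obtain ⟨z, hz, rfl⟩ := Finset.mem_image.1 hp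
      exact (hdec z hz).1
    · intro p hp
      obtain ⟨z, hz, h⟩ := hdom (cd gr gc p) (ff_iff.2 ⟨p, hp, rfl⟩)
      refine ⟨dec z, Finset.mem_image.2 ⟨z, hz, rfl⟩, ?_⟩
      obtain ⟨h1, h2⟩ := hdec z hz
      have bp := dd_bd hρ hκ hp
      have bz := dd_bd hρ hκ h1
      rw [← h2] at h
      rcases h with h | h
      · exact Or.inl (cd_inj hgr hgc bp bz h)
      · exact Or.inr ((cd_adj hgr hgc bp bz).1 h)
  · rintro ⟨Z, hZ, hfZ, hdom⟩
    refine ⟨Z.image (cd gr gc), Finset.card_image_le.trans hZ, ?_, ?_⟩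
    · intro z hz
      obtain ⟨p, hp, rfl⟩ := Finset.mem_image.1 hz
      exact ff_iff.2 ⟨p, hfZ p hp, rfl⟩
    · intro x hx
      obtain ⟨p, hp, rfl⟩ := ff_iff.1 hx
      obtain ⟨z, hz, h⟩ := hdom p hp
      refine ⟨cd gr gc z, Finset.mem_image.2 ⟨z, hz, rfl⟩, ?_⟩
      rcases h with h | h
      · exact Or.inl (by rw [h])
      · exact Or.inr ((cd_adj hgr hgc (dd_bd hρ hκ hp) (dd_bd hρ hκ (hfZ z hz))).2 h)

theorem proj_ff (gr : ℕ → Fin ρ → Bool) (gc : ℕ → Fin κ → Bool) (hgr : IsGray ρ gr)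
    (hgc : IsGray κ gc) (hρ : 3 * (n + 1) < 2 ^ ρ)
    (hκ : 3 * (m + 1) ≤ 2 ^ κ) (A : Fin (n+1) → Fin m → Bool) (w : Vb ρ κ → Bool) :
    (∃ j, ∀ γ, ff gr gc (DD n m A γ) w = γ j) ∨ (∃ b, ∀ γ, ff gr gc (DD n m A γ) w = b) := by
  by_cases h : ∃ j : Fin m, cd gr gc (0, 3 * j.1 + 2, 4) = w
  · obtain ⟨j, hj⟩ := h
    left
    refine ⟨j, fun γ => ?_⟩
    have h1 : ff gr gc (DD n m A γ) w = true ↔ γ j = true := by
      rw [ff_iff]
      constructor
      · rintro ⟨p, hp, hpw⟩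
        have hb : Bd ρ κ (0, 3 * j.1 + 2, 4) := by
          have := j.2
          have h2 : 0 < 2 ^ ρ := Nat.two_pow_pos ρ
          exact ⟨h2, by show 3 * j.1 + 2 < 2 ^ κ; omega, le_refl _⟩
        have h2 : p = (0, 3 * j.1 + 2, 4) :=
          cd_inj hgr hgc (dd_bd hρ hκ hp) hb (hpw.trans hj.symm)
        subst h2
        rcases hp with ⟨u, h1, -⟩ | ⟨j', h1, h2, h3, h4⟩ | ⟨u, j', -, h1, -⟩
        · simp only at h1
          omega
        · have h5 : j' = j := Fin.ext (by simp only at h2; omega)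
          rw [h5] at h4
          exact h4 rfl
        · simp only at h1
          omega
      · intro hg
        exact ⟨(0, 3 * j.1 + 2, 4), Or.inr (Or.inl ⟨j, Nat.zero_le _, rfl, rfl, fun _ => hg⟩), hj⟩
    cases hf : ff gr gc (DD n m A γ) w <;> cases hg : γ j
    · rfl
    · rw [h1.2 hg] at hf
      exact absurd hf (by simp)
    · rw [h1.1 hf] at hg
      exact absurd hg (by simp)
    · rfl
  · right
    refine ⟨ff gr gc (DD n m A fun _ => true) w, fun γ => ?_⟩
    have h1 : ff gr gc (DD n m A γ) w = true ↔ ff gr gc (DD n m A fun _ => true) w = true := by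
      rw [ff_iff, ff_iff]
      constructor
      · rintro ⟨p, hp, hpw⟩
        refine ⟨p, ?_, hpw⟩
        rcases hp with hp | ⟨j', h1, h2, h3, h4⟩ | hp
        · exact Or.inl hp
        · exact Or.inr (Or.inl ⟨j', h1, h2, h3, fun _ => rfl⟩)
        · exact Or.inr (Or.inr hp)
      · rintro ⟨p, hp, hpw⟩
        refine ⟨p, ?_, hpw⟩
        rcases hp with hp | ⟨j', h1, h2, h3, h4⟩ | hp
        · exact Or.inl hp
        · refine Or.inr (Or.inl ⟨j', h1, h2, h3, fun h0 => ?_⟩)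
          exfalso
          apply h
          refine ⟨j', ?_⟩
          rw [← hpw]
          congr 1
          exact (Prod.ext h0 (Prod.ext h2 h3)).symm
        · exact Or.inr (Or.inr hp)
    cases hf : ff gr gc (DD n m A γ) w <;> cases hg : ff gr gc (DD n m A fun _ => true) w
    · rfl
    · rw [h1.2 hg] at hf
      exact absurd hf (by simp)
    · rw [h1.1 hf] at hg
      exact absurd hg (by simp)
    · rfl

end P65T
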