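import Pool.Agent.Lib.P65T.Defs

/-!
The number of gates is the domination number, for every class of gates between the star
functions and the unate functions, if `f` accepts no subcube of dimension 2.
-/

namespace P65T

open P65

variable {ι : Type}

/-- The gate of the point `z`. -/
private noncomputable def gate (f : (ι → Bool) → Bool) (z : ι → Bool) : (ι → Bool) → Bool :=
  fun x => @decide (f x = true ∧ (x = z ∨ Adj1 x z)) (Classical.propDecidable _)

private theorem gate_iff (f : (ι → Bool) → Bool) (z x : ι → Bool) :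
    gate f z x = true ↔ f x = true ∧ (x = z ∨ Adj1 x z) := by
  unfold gate
  exact @decide_eq_true_iff _ (Classical.propDecidable _)

private theorem eq_of_flip {x y z : ι → Bool} {i : ι} (h1 : x i ≠ z i) (h2 : ∀ j, j ≠ i → x j = z j)
    (h3 : y i ≠ z i) (h4 : ∀ j, j ≠ i → y j = z j) : x = y := by
  funext j
  by_cases h : j = i
  · subst h
    revert h1 h3
    cases x j <;> cases y j <;> cases z j <;> simp
  · rw [h2 j h, h4 j h]

private theorem gate_star (f : (ι → Bool) → Bool) (z : ι → Bool) (hz : f z = true) :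
    IsStar (gate f z) := by
  refine ⟨z, {i | ∃ x, f x = true ∧ x i ≠ z i ∧ ∀ j, j ≠ i → x j = z j}, fun x => ?_⟩
  rw [gate_iff]
  constructor
  · rintro ⟨hfx, h | ⟨i, h1, h2⟩⟩
    · exact Or.inl h
    · exact Or.inr ⟨i, ⟨x, hfx, h1, h2⟩, h1, h2⟩
  · rintro (h | ⟨i, ⟨y, hfy, h3, h4⟩, h1, h2⟩)
    · subst h
      exact ⟨hz, Or.inl rfl⟩
    · have hxy := eq_of_flip h1 h2 h3 h4
      rw [← hxy] at hfy
      exact ⟨hfy, Or.inr ⟨i, h1, h2⟩⟩

theorem orOf_iff (G : ((ι → Bool) → Bool) → Prop) (hs : ∀ g, IsStar g → G g)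
    (hu : ∀ g, G g → IsUnate g) (f : (ι → Bool) → Bool) (hf : NoSq f) (s : ℕ) :
    OrOf G f s ↔ Dom f s := by
  classical
  constructor
  · rintro ⟨gs, hl, hG, hgs⟩
    have hc : ∀ g : (ι → Bool) → Bool, ∃ c : ι → Bool, g ∈ gs →
        ∀ x y : ι → Bool, (∀ i, y i = x i ∨ y i = c i) → g x = true → g y = true := by
      intro g
      by_cases hg : g ∈ gs
      · obtain ⟨c, hc⟩ := hu g (hG g hg)
        exact ⟨c, fun _ => hc⟩
      · exact ⟨fun _ => false, fun h => absurd h hg⟩
    choose c hc using hc
    refine ⟨((gs.map c).toFinset).filter fun z => f z = true, ?_, ?_, ?_⟩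
    · refine (Finset.card_filter_le _ _).trans ((List.toFinset_card_le _).trans ?_)
      rw [List.length_map]
      exact hl
    · intro z hz
      exact (Finset.mem_filter.1 hz).2
    · intro x hx
      obtain ⟨g, hg, hgx⟩ := (hgs x).1 hx
      have h1 : ∀ y, (∀ i, y i = x i ∨ y i = c g i) → f y = true := fun y hy =>
        (hgs y).2 ⟨g, hg, hc g hg x y hy hgx⟩
      refine ⟨c g, Finset.mem_filter.2 ⟨List.mem_toFinset.2 (List.mem_map.2 ⟨g, hg, rfl⟩),
        h1 _ fun i => Or.inr rfl⟩, hf _ _ h1⟩
  · rintro ⟨Z, hZ, hfZ, hdom⟩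
    refine ⟨Z.toList.map (gate f), ?_, ?_, ?_⟩
    · rw [List.length_map, Finset.length_toList]
      exact hZ
    · intro g hg
      obtain ⟨z, hz, rfl⟩ := List.mem_map.1 hg
      exact hs _ (gate_star f z (hfZ z (Finset.mem_toList.1 hz)))
    · intro x
      constructor
      · intro hx
        obtain ⟨z, hz, h⟩ := hdom x hx
        exact ⟨gate f z, List.mem_map.2 ⟨z, Finset.mem_toList.2 hz, rfl⟩, (gate_iff f z x).2 ⟨hx, h⟩⟩
      · rintro ⟨g, hg, hgx⟩
        obtain ⟨z, -, rfl⟩ := List.mem_map.1 hg
        exact ((gate_iff f z x).1 hgx).1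

theorem unate_bnot {g : (ι → Bool) → Bool} (h : IsUnate g) : IsUnate (bnot g) := by
  obtain ⟨c, hc⟩ := h
  refine ⟨fun i => !(c i), fun x y hxy hgx => ?_⟩
  unfold bnot at hgx ⊢
  by_contra hcon
  have h1 : g y = true := by
    cases h : g y
    · rw [h] at hcon
      simp at hcon
    · rfl
  have h2 := hc y x (fun i => ?_) h1
  · rw [h2] at hgx
    simp at hgx
  · rcases hxy i with h3 | h3
    · exact Or.inl h3.symm
    · rw [h3]
      show x i = !(c i) ∨ x i = c i
      cases x i <;> cases c i <;> simp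

theorem bnot_bnot (g : (ι → Bool) → Bool) : bnot (bnot g) = g := by
  funext x
  simp [bnot]

theorem andOf_iff (G : ((ι → Bool) → Bool) → Prop) (hs : ∀ g, IsStar g → G (bnot g))
    (hu : ∀ g, G g → IsUnate g) (f : (ι → Bool) → Bool) (hf : NoSq f) (s : ℕ) :
    AndOf G (bnot f) s ↔ Dom f s := by
  rw [← orOf_iff (fun g => G (bnot g)) hs
    (fun g hg => by
      have h := unate_bnot (hu _ hg)
      rwa [bnot_bnot] at h) f hf s]
  constructor
  · rintro ⟨gs, hl, hG, hgs⟩
    refine ⟨gs.map bnot, by rwa [List.length_map], ?_, ?_⟩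
    · intro g hg
      obtain ⟨g', hg', rfl⟩ := List.mem_map.1 hg
      show G (bnot (bnot g'))
      rw [bnot_bnot]
      exact hG g' hg'
    · intro x
      have h1 := hgs x
      constructor
      · intro hx
        by_contra hcon
        have h2 : bnot f x = true := h1.2 fun g hg => by
          cases h : g x
          · exact absurd ⟨bnot g, List.mem_map.2 ⟨g, hg, rfl⟩, by simp [bnot, h]⟩ hcon
          · rfl
        simp [bnot, hx] at h2
      · rintro ⟨g, hg, hgx⟩
        obtain ⟨g', hg', rfl⟩ := List.mem_map.1 hg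
        by_contra hcon
        have h2 : bnot f x = true := by
          simp only [Bool.not_eq_true] at hcon
          simp [bnot, hcon]
        have h3 := h1.1 h2 g' hg'
        simp [bnot, h3] at hgx
  · rintro ⟨gs, hl, hG, hgs⟩
    refine ⟨gs.map bnot, by rwa [List.length_map], ?_, ?_⟩
    · intro g hg
      obtain ⟨g', hg', rfl⟩ := List.mem_map.1 hg
      exact hG g' hg'
    · intro x
      have h1 := hgs x
      constructor
      · intro hx g hg
        obtain ⟨g', hg', rfl⟩ := List.mem_map.1 hg
        by_contra hcon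
        have h2 : g' x = true := by
          cases h : g' x
          · exact absurd (by simp [bnot, h]) hcon
          · rfl
        have h3 := h1.2 ⟨g', hg', h2⟩
        simp [bnot, h3] at hx
      · intro h2
        by_contra hcon
        have h3 : f x = true := by
          cases h : f x
          · exact absurd (by simp [bnot, h]) hcon
          · rfl
        obtain ⟨g, hg, hgx⟩ := h1.1 h3
        have h4 := h2 (bnot g) (List.mem_map.2 ⟨g, hg, rfl⟩)
        simp [bnot, hgx] at h4

end P65T
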