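import Pool.Agent.Lib.P65T.Defs

/-!
Upper bound for the domination number of the crossbar.
-/

namespace P65T

private theorem gx {x x' y l : ℕ} (h : x = x' + 1 ∨ x' = x + 1) :
    GAdj ((x, y, l) : GP) (x', y, l) := Or.inl ⟨h, rfl, rfl⟩

private theorem gy {x y y' l : ℕ} (h : y = y' + 1 ∨ y' = y + 1) :
    GAdj ((x, y, l) : GP) (x, y', l) := Or.inr (Or.inl ⟨rfl, h, rfl⟩)

private theorem gz {x y l l' : ℕ} (h : l = l' + 1 ∨ l' = l + 1) :
    GAdj ((x, y, l) : GP) (x, y, l') := Or.inr (Or.inr ⟨rfl, rfl, h⟩)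

theorem gdom_of_hit (n m K : ℕ) (A : Fin (n+1) → Fin m → Bool) (γ : Fin m → Bool)
    (h : Hit n m A γ K) :
    GDom (DD n m A γ) ((n + 1) * (m + 1) + m * (n + 1) + nA n m A + K) := by
  classical
  obtain ⟨U, hU, hhit⟩ := h
  have hcu : ∀ j, ∃ u : Fin (n+1), γ j = true → u ∈ U ∧ A u j = true := by
    intro j
    by_cases hj : γ j = true
    · obtain ⟨u, hu, hA⟩ := hhit j hj
      exact ⟨u, fun _ => ⟨hu, hA⟩⟩
    · exact ⟨0, fun h => absurd h hj⟩
  choose cu hcu using hcu
  obtain ⟨fr, hfr⟩ : ∃ fr : Fin (n+1) × Fin (m+1) → GP, fr = fun q =>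
    (3 * (q.1.1 + 1), if q.1 ∈ U then 3 * q.2.1 + 2 else 3 * q.2.1 + 1, 0) := ⟨_, rfl⟩
  obtain ⟨fe, hfe⟩ : ∃ fe : Fin (n+1) → GP, fe = fun u => (3 * (u.1 + 1), 0, 0) := ⟨_, rfl⟩
  obtain ⟨fc, hfc⟩ : ∃ fc : Fin m × Fin (n+1) → GP, fc = fun q =>
    (if γ q.1 = true ∧ q.2.1 ≤ (cu q.1).1 then 3 * q.2.1 + 1 else 3 * q.2.1 + 2,
      3 * q.1.1 + 2, 4) := ⟨_, rfl⟩
  obtain ⟨fd, hfd⟩ : ∃ fd : Fin (n+1) × Fin m → GP, fd = fun q =>
    (3 * (q.1.1 + 1), 3 * q.2.1 + 2, if γ q.2 = true ∧ q.1 = cu q.2 then 3 else 2) := ⟨_, rfl⟩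
  obtain ⟨P, hP⟩ : ∃ P : Finset (Fin (n+1) × Fin m), P =
    Finset.univ.filter fun p => A p.1 p.2 = true := ⟨_, rfl⟩
  refine ⟨(((Finset.univ.image fr) ∪ (U.image fe)) ∪ (Finset.univ.image fc)) ∪ (P.image fd),
    ?_, ?_, ?_⟩
  · have c1 : (Finset.univ.image fr).card ≤ (n + 1) * (m + 1) := by
      refine Finset.card_image_le.trans ?_
      rw [Finset.card_univ, Fintype.card_prod, Fintype.card_fin, Fintype.card_fin]
    have c2 : (U.image fe).card ≤ U.card := Finset.card_image_le
    have c3 : (Finset.univ.image fc).card ≤ m * (n + 1) := by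
      refine Finset.card_image_le.trans ?_
      rw [Finset.card_univ, Fintype.card_prod, Fintype.card_fin, Fintype.card_fin]
    have c4 : (P.image fd).card ≤ nA n m A := by
      refine Finset.card_image_le.trans ?_
      rw [nA, hP]
    have d1 := Finset.card_union_le (((Finset.univ.image fr) ∪ (U.image fe)) ∪
      (Finset.univ.image fc)) (P.image fd)
    have d2 := Finset.card_union_le ((Finset.univ.image fr) ∪ (U.image fe))
      (Finset.univ.image fc)
    have d3 := Finset.card_union_le (Finset.univ.image fr) (U.image fe)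
    omega
  · intro z hz
    rcases Finset.mem_union.1 hz with hz | hz
    · rcases Finset.mem_union.1 hz with hz | hz
      · rcases Finset.mem_union.1 hz with hz | hz
        · obtain ⟨q, -, rfl⟩ := Finset.mem_image.1 hz
          have := q.2.2
          refine Or.inl ⟨q.1, ?_, ?_, ?_⟩
          · rw [hfr]
          · rw [hfr]
            simp only
            split_ifs <;> omega
          · rw [hfr]
        · obtain ⟨u, -, rfl⟩ := Finset.mem_image.1 hz
          refine Or.inl ⟨u, ?_, ?_, ?_⟩
          · rw [hfe]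
          · rw [hfe]
            simp only
            omega
          · rw [hfe]
      · obtain ⟨q, -, rfl⟩ := Finset.mem_image.1 hz
        have := q.2.2
        refine Or.inr (Or.inl ⟨q.1, ?_, ?_, ?_, ?_⟩)
        · rw [hfc]
          simp only
          split_ifs <;> omega
        · rw [hfc]
        · rw [hfc]
        · rw [hfc]
          simp only
          intro h0
          split_ifs at h0
    · obtain ⟨q, hq, rfl⟩ := Finset.mem_image.1 hz
      rw [hP] at hq
      refine Or.inr (Or.inr ⟨q.1, q.2, (Finset.mem_filter.1 hq).2, ?_, ?_, ?_, ?_⟩)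
      · rw [hfd]
      · rw [hfd]
      · rw [hfd]
        simp only
        split_ifs <;> omega
      · rw [hfd]
        simp only
        split_ifs <;> omega
  · have mr : ∀ (u : Fin (n+1)) (i : Fin (m+1)), fr (u, i) ∈
        (((Finset.univ.image fr) ∪ (U.image fe)) ∪ (Finset.univ.image fc)) ∪ (P.image fd) :=
      fun u i => Finset.mem_union_left _ (Finset.mem_union_left _ (Finset.mem_union_left _
        (Finset.mem_image.2 ⟨_, Finset.mem_univ _, rfl⟩)))
    have me : ∀ u ∈ U, fe u ∈
        (((Finset.univ.image fr) ∪ (U.image fe)) ∪ (Finset.univ.image fc)) ∪ (P.image fd) :=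
      fun u hu => Finset.mem_union_left _ (Finset.mem_union_left _ (Finset.mem_union_right _
        (Finset.mem_image.2 ⟨_, hu, rfl⟩)))
    have mc : ∀ (j : Fin m) (i : Fin (n+1)), fc (j, i) ∈
        (((Finset.univ.image fr) ∪ (U.image fe)) ∪ (Finset.univ.image fc)) ∪ (P.image fd) :=
      fun u i => Finset.mem_union_left _ (Finset.mem_union_right _
        (Finset.mem_image.2 ⟨_, Finset.mem_univ _, rfl⟩))
    have md : ∀ (u : Fin (n+1)) (j : Fin m), A u j = true → fd (u, j) ∈
        (((Finset.univ.image fr) ∪ (U.image fe)) ∪ (Finset.univ.image fc)) ∪ (P.image fd) :=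
      fun u j hA => Finset.mem_union_right _ (Finset.mem_image.2 ⟨(u, j), by
        rw [hP]; exact Finset.mem_filter.2 ⟨Finset.mem_univ _, hA⟩, rfl⟩)
    generalize (((Finset.univ.image fr) ∪ (U.image fe)) ∪ (Finset.univ.image fc)) ∪
      (P.image fd) = Z at mr me mc md
    rintro ⟨x, y, l⟩ hp
    rcases hp with ⟨u, h1, h2, h3⟩ | ⟨j, h1, h2, h3, h4⟩ | ⟨u, j, hA, h1, h2, h3, h4⟩
    · simp only at h1 h2 h3
      subst h1 h3
      have hi : y / 3 < m + 1 := by omega
      by_cases hu : u ∈ U
      · by_cases h0 : y = 0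
        · subst h0
          exact ⟨_, me u hu, Or.inl (by rw [hfe])⟩
        · by_cases hy : y % 3 = 0
          · refine ⟨_, mr u ⟨y / 3 - 1, by omega⟩, Or.inr ?_⟩
            rw [hfr]
            simp only [if_pos hu]
            exact gy (by omega)
          · by_cases hy2 : y % 3 = 2
            · refine ⟨_, mr u ⟨y / 3, hi⟩, Or.inl ?_⟩
              rw [hfr]
              simp only [if_pos hu]
              exact Prod.ext rfl (Prod.ext (by simp only; omega) rfl)
            · refine ⟨_, mr u ⟨y / 3, hi⟩, Or.inr ?_⟩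
              rw [hfr]
              simp only [if_pos hu]
              exact gy (by omega)
      · by_cases hy1 : y % 3 = 1
        · refine ⟨_, mr u ⟨y / 3, hi⟩, Or.inl ?_⟩
          rw [hfr]
          simp only [if_neg hu]
          exact Prod.ext rfl (Prod.ext (by simp only; omega) rfl)
        · refine ⟨_, mr u ⟨y / 3, hi⟩, Or.inr ?_⟩
          rw [hfr]
          simp only [if_neg hu]
          exact gy (by omega)
    · simp only at h1 h2 h3 h4
      subst h2 h3
      by_cases hg : γ j = true
      · obtain ⟨hcU, hcA⟩ := hcu j hg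
        by_cases hx : x = 3 * ((cu j).1 + 1)
        · subst hx
          refine ⟨_, md (cu j) j hcA, Or.inr ?_⟩
          rw [hfd]
          show GAdj ((3 * ((cu j).1 + 1), 3 * j.1 + 2, 4) : GP)
            (3 * ((cu j).1 + 1), 3 * j.1 + 2, if γ j = true ∧ cu j = cu j then 3 else 2)
          rw [if_pos ⟨hg, rfl⟩]
          exact gz (by omega)
        · by_cases hx1 : x < 3 * ((cu j).1 + 1)
          · have hi : x / 3 < n + 1 := by have := (cu j).2; omega
            have hle : x / 3 ≤ (cu j).1 := by omega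
            by_cases hx2 : x % 3 = 1
            · refine ⟨_, mc j ⟨x / 3, hi⟩, Or.inl ?_⟩
              rw [hfc]
              simp only [if_pos (And.intro hg hle)]
              exact Prod.ext (by simp only; omega) (Prod.ext rfl rfl)
            · refine ⟨_, mc j ⟨x / 3, hi⟩, Or.inr ?_⟩
              rw [hfc]
              simp only [if_pos (And.intro hg hle)]
              exact gx (by omega)
          · have hi : (x - 1) / 3 < n + 1 := by omega
            have hle : ¬ ((x - 1) / 3 ≤ (cu j).1) := by omega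
            by_cases hx2 : x % 3 = 2
            · refine ⟨_, mc j ⟨(x - 1) / 3, hi⟩, Or.inl ?_⟩
              rw [hfc]
              simp only [if_neg (fun h : γ j = true ∧ (x - 1) / 3 ≤ (cu j).1 => hle h.2)]
              exact Prod.ext (by simp only; omega) (Prod.ext rfl rfl)
            · refine ⟨_, mc j ⟨(x - 1) / 3, hi⟩, Or.inr ?_⟩
              rw [hfc]
              simp only [if_neg (fun h : γ j = true ∧ (x - 1) / 3 ≤ (cu j).1 => hle h.2)]
              exact gx (by omega)
      · have hx0 : x ≠ 0 := fun h => hg (h4 h)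
        have hi : (x - 1) / 3 < n + 1 := by omega
        by_cases hx2 : x % 3 = 2
        · refine ⟨_, mc j ⟨(x - 1) / 3, hi⟩, Or.inl ?_⟩
          rw [hfc]
          simp only [if_neg (fun h : γ j = true ∧ (x - 1) / 3 ≤ (cu j).1 => hg h.1)]
          exact Prod.ext (by simp only; omega) (Prod.ext rfl rfl)
        · refine ⟨_, mc j ⟨(x - 1) / 3, hi⟩, Or.inr ?_⟩
          rw [hfc]
          simp only [if_neg (fun h : γ j = true ∧ (x - 1) / 3 ≤ (cu j).1 => hg h.1)]
          exact gx (by omega)
    · simp only at h1 h2 h3 h4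
      subst h1 h2
      by_cases hc : γ j = true ∧ u = cu j
      · obtain ⟨hcU, -⟩ := hcu j hc.1
        rw [← hc.2] at hcU
        by_cases hl1 : l = 1
        · refine ⟨_, mr u ⟨j.1, by have := j.2; omega⟩, Or.inr ?_⟩
          rw [hfr]
          simp only [if_pos hcU]
          exact gz (by omega)
        · by_cases hl3 : l = 3
          · refine ⟨_, md u j hA, Or.inl ?_⟩
            rw [hfd]
            simp only [if_pos hc]
            rw [hl3]
          · refine ⟨_, md u j hA, Or.inr ?_⟩
            rw [hfd]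
            simp only [if_pos hc]
            exact gz (by omega)
      · by_cases hl2 : l = 2
        · refine ⟨_, md u j hA, Or.inl ?_⟩
          rw [hfd]
          simp only [if_neg hc]
          rw [hl2]
        · refine ⟨_, md u j hA, Or.inr ?_⟩
          rw [hfd]
          simp only [if_neg hc]
          exact gz (by omega)

end P65T
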