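import Pool.Agent.Lib.P65T.LB
import Pool.Agent.Lib.P65T.UB
import Pool.Agent.Lib.P65T.Geom
import Pool.Agent.Lib.P65T.Star

/-!
The instance: transport to the variables `Fin M`, and the number of gates.
-/

namespace P65T

open P65

variable {ι κ' : Type}

theorem noSq_equiv (e : ι ≃ κ') {f : (ι → Bool) → Bool} (h : NoSq f) :
    NoSq (fun w : κ' → Bool => f (fun i => w (e i))) := by
  intro c x hall
  have h1 := h (fun i => c (e i)) (fun i => x (e i)) (fun y hy => by
    have h2 := hall (fun k => y (e.symm k)) (fun k => by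
      have h3 := hy (e.symm k)
      rw [e.apply_symm_apply] at h3
      exact h3)
    have h4 : (fun i => y (e.symm (e i))) = y := by
      funext i
      rw [e.symm_apply_apply]
    have h5 : f (fun i => y (e.symm (e i))) = true := h2
    rw [h4] at h5
    exact h5)
  rcases h1 with h1 | ⟨i, h1, h2⟩
  · left
    funext k
    have h3 := congrFun h1 (e.symm k)
    simpa using h3
  · right
    refine ⟨e i, h1, fun k hk => ?_⟩
    have h3 := h2 (e.symm k) (fun h => hk (by rw [← h, e.apply_symm_apply]))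
    simpa using h3

theorem dom_transport (e : ι ≃ κ') {f : (ι → Bool) → Bool} {s : ℕ} (h : Dom f s) :
    Dom (fun w : κ' → Bool => f (fun i => w (e i))) s := by
  classical
  obtain ⟨Z, hZ, hfZ, hdom⟩ := h
  refine ⟨Z.image (fun z k => z (e.symm k)), Finset.card_image_le.trans hZ, ?_, ?_⟩
  · intro z hz
    obtain ⟨z', hz', rfl⟩ := Finset.mem_image.1 hz
    show f (fun i => z' (e.symm (e i))) = true
    have h4 : (fun i => z' (e.symm (e i))) = z' := by
      funext i
      rw [e.symm_apply_apply]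
    rw [h4]
    exact hfZ z' hz'
  · intro x hx
    obtain ⟨z, hz, h1⟩ := hdom _ hx
    refine ⟨_, Finset.mem_image.2 ⟨z, hz, rfl⟩, ?_⟩
    rcases h1 with h1 | ⟨i, h1, h2⟩
    · left
      funext k
      have h3 := congrFun h1 (e.symm k)
      simpa using h3
    · right
      refine ⟨e i, ?_, fun k hk => ?_⟩
      · simpa using h1
      · have h3 := h2 (e.symm k) (fun h => hk (by rw [← h, e.apply_symm_apply]))
        simpa using h3

theorem dom_equiv (e : ι ≃ κ') (f : (ι → Bool) → Bool) (s : ℕ) :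
    Dom (fun w : κ' → Bool => f (fun i => w (e i))) s ↔ Dom f s := by
  constructor
  · intro h
    have h1 := dom_transport e.symm h
    have h2 : (fun w : ι → Bool => (fun w : κ' → Bool => f (fun i => w (e i)))
        (fun k => w (e.symm k))) = f := by
      funext w
      show f (fun i => w (e.symm (e i))) = f w
      congr 1
      funext i
      rw [e.symm_apply_apply]
    rw [h2] at h1
    exact h1
  · exact dom_transport e

variable {ρ κ n m : ℕ}

/-- The size bound of the instance. -/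
def siz (n m : ℕ) (A : Fin (n+1) → Fin m → Bool) (K : ℕ) : ℕ :=
  (n + 1) * (m + 1) + m * (n + 1) + nA n m A + K

theorem dom_inst (A : Fin (n+1) → Fin m → Bool) (gr : ℕ → Fin ρ → Bool)
    (gc : ℕ → Fin κ → Bool) (hgr : IsGray ρ gr) (hgc : IsGray κ gc) (hρ : 3 * (n + 1) < 2 ^ ρ)
    (hκ : 3 * (m + 1) ≤ 2 ^ κ) (hne : ∀ j, ∃ u, A u j = true) {M : ℕ} (e : Vb ρ κ ≃ Fin M)
    (γ : Fin m → Bool) (K : ℕ) :
    Dom (fun w : Fin M → Bool => ff gr gc (DD n m A γ) (fun i => w (e i))) (siz n m A K) ↔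
      Hit n m A γ K := by
  rw [dom_equiv e (ff gr gc (DD n m A γ)) (siz n m A K), dom_iff hgr hgc hρ hκ]
  exact ⟨hit_of_gdom n m K A γ hne, gdom_of_hit n m K A γ⟩

theorem or_inst (A : Fin (n+1) → Fin m → Bool) (gr : ℕ → Fin ρ → Bool)
    (gc : ℕ → Fin κ → Bool) (hgr : IsGray ρ gr) (hgc : IsGray κ gc) (hρ : 3 * (n + 1) < 2 ^ ρ)
    (hκ : 3 * (m + 1) ≤ 2 ^ κ) (hne : ∀ j, ∃ u, A u j = true) {M : ℕ} (e : Vb ρ κ ≃ Fin M)
    (G : ((Fin M → Bool) → Bool) → Prop) (hs : ∀ g, IsStar g → G g)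
    (hu : ∀ g, G g → IsUnate g) (γ : Fin m → Bool) (K : ℕ) :
    OrOf G (fun w : Fin M → Bool => ff gr gc (DD n m A γ) (fun i => w (e i))) (siz n m A K) ↔
      Hit n m A γ K := by
  rw [orOf_iff G hs hu _ (noSq_equiv e (noSq_ff hgr hgc hρ hκ))]
  exact dom_inst A gr gc hgr hgc hρ hκ hne e γ K

theorem and_inst (A : Fin (n+1) → Fin m → Bool) (gr : ℕ → Fin ρ → Bool)
    (gc : ℕ → Fin κ → Bool) (hgr : IsGray ρ gr) (hgc : IsGray κ gc) (hρ : 3 * (n + 1) < 2 ^ ρ)
    (hκ : 3 * (m + 1) ≤ 2 ^ κ) (hne : ∀ j, ∃ u, A u j = true) {M : ℕ} (e : Vb ρ κ ≃ Fin M)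
    (G : ((Fin M → Bool) → Bool) → Prop) (hs : ∀ g, IsStar g → G (bnot g))
    (hu : ∀ g, G g → IsUnate g) (γ : Fin m → Bool) (K : ℕ) :
    AndOf G (bnot (fun w : Fin M → Bool => ff gr gc (DD n m A γ) (fun i => w (e i))))
      (siz n m A K) ↔ Hit n m A γ K := by
  rw [andOf_iff G hs hu _ (noSq_equiv e (noSq_ff hgr hgc hρ hκ))]
  exact dom_inst A gr gc hgr hgc hρ hκ hne e γ K

theorem siz_le (n m : ℕ) (A : Fin (n+1) → Fin m → Bool) (K : ℕ) (hK : K ≤ n + 1) :
    siz n m A K ≤ 4 * ((n+1) * (m+1)) := by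
  have h1 : nA n m A ≤ (n+1) * m := by
    unfold nA
    refine (Finset.card_filter_le _ _).trans ?_
    rw [Finset.card_univ, Fintype.card_prod, Fintype.card_fin, Fintype.card_fin]
  have h2 : (n+1) * (m+1) = (n+1) * m + (n+1) := by ring
  have h3 : m * (n+1) = (n+1) * m := by ring
  unfold siz
  omega

end P65T
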