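import Pool.Agent.Lib.P65T.Defs

/-!
Lower bound for the domination number of the crossbar.
-/

namespace P65T

namespace LBAux

variable {n m : ℕ} {A : Fin (n+1) → Fin m → Bool} {γ : Fin m → Bool} {Z : Finset GP}

/-- The part of `Z` on the row wire `u`. -/
def R (Z : Finset GP) (u : ℕ) : Finset GP := Z.filter fun z => z.2.2 = 0 ∧ z.1 = 3 * (u + 1)

/-- The part of `Z` on the column wire `j`. -/
def C (Z : Finset GP) (j : ℕ) : Finset GP := Z.filter fun z => z.2.2 = 4 ∧ z.2.1 = 3 * j + 2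

/-- The part of `Z` on the connector `(u, j)`. -/
def E (Z : Finset GP) (u j : ℕ) : Finset GP :=
  Z.filter fun z => (1 ≤ z.2.2 ∧ z.2.2 ≤ 3) ∧ z.1 = 3 * (u + 1) ∧ z.2.1 = 3 * j + 2

/-- Facts on the points of `D`. -/
theorem facts {p : GP} (h : DD n m A γ p) :
    (p.2.2 < 4 → p.1 % 3 = 0 ∧ 3 ≤ p.1) ∧ (0 < p.2.2 → p.2.1 % 3 = 2) ∧ p.2.2 ≤ 4 ∧
      p.1 ≤ 3 * (n + 1) ∧ p.2.1 < 3 * (m + 1) := by
  rcases h with ⟨u, h1, h2, h3⟩ | ⟨j, h1, h2, h3, -⟩ | ⟨u, j, -, h1, h2, h3, h4⟩
  · have := u.2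
    refine ⟨by omega, by omega, by omega, by omega, by omega⟩
  · have := j.2
    refine ⟨by omega, by omega, by omega, by omega, by omega⟩
  · have := u.2
    have := j.2
    refine ⟨by omega, by omega, by omega, by omega, by omega⟩

theorem row_pt (u : Fin (n+1)) {i : ℕ} (hi : i < 3 * (m + 1)) :
    DD n m A γ (3 * (u.1 + 1), i, 0) := Or.inl ⟨u, rfl, hi, rfl⟩

theorem col_pt (j : Fin m) {i : ℕ} (hi : i ≤ 3 * (n + 1)) (h0 : i = 0 → γ j = true) :
    DD n m A γ (i, 3 * j.1 + 2, 4) := Or.inr (Or.inl ⟨j, hi, rfl, rfl, h0⟩)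

theorem con_pt {u : Fin (n+1)} {j : Fin m} (hA : A u j = true) {i : ℕ} (h1 : 1 ≤ i) (h3 : i ≤ 3) :
    DD n m A γ (3 * (u.1 + 1), 3 * j.1 + 2, i) := Or.inr (Or.inr ⟨u, j, hA, rfl, rfl, h1, h3⟩)

/-- Every group of a row wire contains a point of `Z`. -/
theorem row_group (hZ : ∀ z ∈ Z, DD n m A γ z)
    (hdom : ∀ p, DD n m A γ p → ∃ z ∈ Z, p = z ∨ GAdj p z) (u : Fin (n+1)) {i : ℕ}
    (hi : i < m + 1) : ∃ z ∈ R Z u.1, z.2.1 / 3 = i := by
  obtain ⟨z, hz, h⟩ := hdom _ (row_pt u (i := 3 * i + 1) (by omega))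
  have hf := facts (hZ z hz)
  refine ⟨z, Finset.mem_filter.2 ⟨hz, ?_⟩, ?_⟩
  · rcases h with h | ⟨h1, h2, h3⟩ | ⟨h1, h2, h3⟩ | ⟨h1, h2, h3⟩
    · subst h
      exact ⟨rfl, rfl⟩
    · simp only at h1 h2 h3
      exfalso
      have := hf.1 (by omega)
      omega
    · simp only at h1 h2 h3
      exact ⟨h3.symm, h1.symm⟩
    · simp only at h1 h2 h3
      exfalso
      have := hf.2.1 (by omega)
      omega
  · rcases h with h | ⟨h1, h2, h3⟩ | ⟨h1, h2, h3⟩ | ⟨h1, h2, h3⟩
    · subst h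
      show (3 * i + 1) / 3 = i
      omega
    · simp only at h1 h2 h3
      omega
    · simp only at h1 h2 h3
      omega
    · simp only at h1 h2 h3
      omega

theorem row_card (hZ : ∀ z ∈ Z, DD n m A γ z)
    (hdom : ∀ p, DD n m A γ p → ∃ z ∈ Z, p = z ∨ GAdj p z) (u : Fin (n+1)) :
    m + 1 ≤ (R Z u.1).card := by
  have h1 : Finset.range (m + 1) ⊆ (R Z u.1).image fun z => z.2.1 / 3 := by
    intro i hi
    obtain ⟨z, hz, h⟩ := row_group hZ hdom u (Finset.mem_range.1 hi)
    exact Finset.mem_image.2 ⟨z, hz, h⟩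
  have h2 := Finset.card_le_card h1
  rw [Finset.card_range] at h2
  exact h2.trans Finset.card_image_le

theorem row_inj (hZ : ∀ z ∈ Z, DD n m A γ z)
    (hdom : ∀ p, DD n m A γ p → ∃ z ∈ Z, p = z ∨ GAdj p z) (u : Fin (n+1))
    (hc : (R Z u.1).card ≤ m + 1) : Set.InjOn (fun z : GP => z.2.1 / 3) (R Z u.1 : Set GP) := by
  have h1 : Finset.range (m + 1) ⊆ (R Z u.1).image fun z => z.2.1 / 3 := by
    intro i hi
    obtain ⟨z, hz, h⟩ := row_group hZ hdom u (Finset.mem_range.1 hi)
    exact Finset.mem_image.2 ⟨z, hz, h⟩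
  have h2 := Finset.card_le_card h1
  rw [Finset.card_range] at h2
  have h3 : ((R Z u.1).image fun z => z.2.1 / 3).card ≤ (R Z u.1).card := Finset.card_image_le
  exact Finset.card_image_iff.1 (by omega)

theorem mem_R {u i : ℕ} (h : ((3 * (u + 1), i, 0) : GP) ∈ Z) :
    ((3 * (u + 1), i, 0) : GP) ∈ R Z u := Finset.mem_filter.2 ⟨h, rfl, rfl⟩

theorem row_no_tap (hZ : ∀ z ∈ Z, DD n m A γ z)
    (hdom : ∀ p, DD n m A γ p → ∃ z ∈ Z, p = z ∨ GAdj p z) (u : Fin (n+1))
    (hc : (R Z u.1).card ≤ m + 1) : ∀ i, i < m + 1 → ((3 * (u.1 + 1), 3 * i + 2, 0) : GP) ∉ Z := by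
  have hinj := row_inj hZ hdom u hc
  intro i
  induction i with
  | zero =>
    intro _ hz
    obtain ⟨z, hz', h⟩ := hdom _ (row_pt u (i := 0) (by omega))
    have hf := facts (hZ z hz')
    have hzz : z = ((3 * (u.1 + 1), z.2.1, 0) : GP) ∧ z.2.1 ≤ 1 := by
      rcases h with h | ⟨h1, h2, h3⟩ | ⟨h1, h2, h3⟩ | ⟨h1, h2, h3⟩
      · subst h
        exact ⟨rfl, Nat.zero_le _⟩
      · simp only at h1 h2 h3
        exfalso
        have := hf.1 (by omega)
        omega
      · simp only at h1 h2 h3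
        exact ⟨Prod.ext h1.symm (Prod.ext rfl h3.symm), by omega⟩
      · simp only at h1 h2 h3
        exfalso
        have := hf.2.1 (by omega)
        omega
    have h1 : z ∈ R Z u.1 := by
      rw [hzz.1]
      exact mem_R (by rw [← hzz.1]; exact hz')
    have h2 := hinj h1 (mem_R hz) (by
      show z.2.1 / 3 = (3 * 0 + 2) / 3
      omega)
    have h3 := congrArg (fun p : GP => p.2.1) h2
    simp only at h3
    omega
  | succ i ih =>
    intro hi hz
    obtain ⟨z, hz', h⟩ := hdom _ (row_pt u (i := 3 * (i + 1)) (by omega))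
    have hf := facts (hZ z hz')
    have hzz : z = ((3 * (u.1 + 1), z.2.1, 0) : GP) ∧ 3 * i + 2 ≤ z.2.1 ∧ z.2.1 ≤ 3 * i + 4 := by
      rcases h with h | ⟨h1, h2, h3⟩ | ⟨h1, h2, h3⟩ | ⟨h1, h2, h3⟩
      · subst h
        exact ⟨rfl, by simp only; omega, by simp only; omega⟩
      · simp only at h1 h2 h3
        exfalso
        have := hf.1 (by omega)
        omega
      · simp only at h1 h2 h3
        exact ⟨Prod.ext h1.symm (Prod.ext rfl h3.symm), by omega, by omega⟩
      · simp only at h1 h2 h3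
        exfalso
        have := hf.2.1 (by omega)
        omega
    by_cases hlow : z.2.1 = 3 * i + 2
    · apply ih (by omega)
      rw [← hlow, ← hzz.1]
      exact hz'
    · have h1 : z ∈ R Z u.1 := by
        rw [hzz.1]
        exact mem_R (by rw [← hzz.1]; exact hz')
      have h2 := hinj h1 (mem_R hz) (by
        show z.2.1 / 3 = (3 * (i + 1) + 2) / 3
        omega)
      have h3 := congrArg (fun p : GP => p.2.1) h2
      simp only at h3
      omega

/-- Every group of a column wire contains a point of `Z`. -/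
theorem col_group (hZ : ∀ z ∈ Z, DD n m A γ z)
    (hdom : ∀ p, DD n m A γ p → ∃ z ∈ Z, p = z ∨ GAdj p z) (j : Fin m) {i : ℕ}
    (hi : i < n + 1) : ∃ z ∈ (C Z j.1).filter (fun z => 1 ≤ z.1), (z.1 - 1) / 3 = i := by
  obtain ⟨z, hz, h⟩ := hdom _ (col_pt j (i := 3 * i + 2) (by omega) (by omega))
  have hf := facts (hZ z hz)
  have key : (z.2.2 = 4 ∧ z.2.1 = 3 * j.1 + 2) ∧ 3 * i + 1 ≤ z.1 ∧ z.1 ≤ 3 * i + 3 := by
    rcases h with h | ⟨h1, h2, h3⟩ | ⟨h1, h2, h3⟩ | ⟨h1, h2, h3⟩
    · subst h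
      exact ⟨⟨rfl, rfl⟩, by simp only; omega, by simp only; omega⟩
    · simp only at h1 h2 h3
      exact ⟨⟨h3.symm, h2.symm⟩, by omega, by omega⟩
    · simp only at h1 h2 h3
      exfalso
      have := hf.2.1 (by omega)
      omega
    · simp only at h1 h2 h3
      exfalso
      have h4 := hf.2.2.1
      have := hf.1 (by omega)
      omega
  exact ⟨z, Finset.mem_filter.2 ⟨Finset.mem_filter.2 ⟨hz, key.1⟩, by omega⟩, by omega⟩

theorem col_card' (hZ : ∀ z ∈ Z, DD n m A γ z)
    (hdom : ∀ p, DD n m A γ p → ∃ z ∈ Z, p = z ∨ GAdj p z) (j : Fin m) :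
    n + 1 ≤ (((C Z j.1).filter (fun z => 1 ≤ z.1)).image fun z => (z.1 - 1) / 3).card := by
  have h1 : Finset.range (n + 1) ⊆
      ((C Z j.1).filter (fun z => 1 ≤ z.1)).image fun z => (z.1 - 1) / 3 := by
    intro i hi
    obtain ⟨z, hz, h⟩ := col_group hZ hdom j (Finset.mem_range.1 hi)
    exact Finset.mem_image.2 ⟨z, hz, h⟩
  have h2 := Finset.card_le_card h1
  rwa [Finset.card_range] at h2

theorem col_card (hZ : ∀ z ∈ Z, DD n m A γ z)
    (hdom : ∀ p, DD n m A γ p → ∃ z ∈ Z, p = z ∨ GAdj p z) (j : Fin m) :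
    n + 1 ≤ (C Z j.1).card :=
  (col_card' hZ hdom j).trans (Finset.card_image_le.trans (Finset.card_filter_le _ _))

theorem mem_C {j i : ℕ} (h : ((i, 3 * j + 2, 4) : GP) ∈ Z) :
    ((i, 3 * j + 2, 4) : GP) ∈ C Z j := Finset.mem_filter.2 ⟨h, rfl, rfl⟩

theorem col_hit (hZ : ∀ z ∈ Z, DD n m A γ z)
    (hdom : ∀ p, DD n m A γ p → ∃ z ∈ Z, p = z ∨ GAdj p z) (j : Fin m)
    (hc : (C Z j.1).card ≤ n + 1) (hγ : γ j = true) :
    ∃ u : Fin (n+1), A u j = true ∧ ((3 * (u.1 + 1), 3 * j.1 + 2, 3) : GP) ∈ Z := by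
  have h1 := col_card' hZ hdom j
  have h2 : (((C Z j.1).filter (fun z => 1 ≤ z.1)).image fun z => (z.1 - 1) / 3).card ≤
      ((C Z j.1).filter (fun z => 1 ≤ z.1)).card := Finset.card_image_le
  have h3 := Finset.card_filter_le (C Z j.1) (fun z => 1 ≤ z.1)
  have hinj : Set.InjOn (fun z : GP => (z.1 - 1) / 3)
      ((C Z j.1).filter (fun z => 1 ≤ z.1) : Set GP) := Finset.card_image_iff.1 (by omega)
  have hall : ∀ z ∈ C Z j.1, 1 ≤ z.1 := by
    have h4 : (C Z j.1).filter (fun z => 1 ≤ z.1) = C Z j.1 :=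
      Finset.eq_of_subset_of_card_le (Finset.filter_subset _ _) (by omega)
    intro z hz
    rw [← h4] at hz
    exact (Finset.mem_filter.1 hz).2
  have hcol : ∀ {a b : ℕ}, 1 ≤ a → 1 ≤ b → ((a, 3 * j.1 + 2, 4) : GP) ∈ Z →
      ((b, 3 * j.1 + 2, 4) : GP) ∈ Z → (a - 1) / 3 = (b - 1) / 3 → a = b := by
    intro a b ha hb hza hzb hab
    have h5 := hinj (Finset.mem_coe.2 (Finset.mem_filter.2 ⟨mem_C hza, ha⟩))
      (Finset.mem_coe.2 (Finset.mem_filter.2 ⟨mem_C hzb, hb⟩)) hab
    exact congrArg (fun p : GP => p.1) h5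
  by_contra hcon
  simp only [not_exists, not_and] at hcon
  have hstep : ∀ i, i < n + 1 → ((3 * i + 1, 3 * j.1 + 2, 4) : GP) ∈ Z := by
    intro i
    induction i with
    | zero =>
      intro _
      obtain ⟨z, hz, h⟩ := hdom _ (col_pt j (i := 0) (by omega) (fun _ => hγ))
      have hf := facts (hZ z hz)
      rcases h with h | ⟨h1, h2, h3⟩ | ⟨h1, h2, h3⟩ | ⟨h1, h2, h3⟩
      · subst h
        have := hall _ (mem_C hz)
        simp only at this
        omega
      · simp only at h1 h2 h3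
        have h4 : z = ((3 * 0 + 1, 3 * j.1 + 2, 4) : GP) :=
          Prod.ext (by simp only; omega) (Prod.ext h2.symm h3.symm)
        rw [← h4]
        exact hz
      · simp only at h1 h2 h3
        exfalso
        have := hf.2.1 (by omega)
        omega
      · simp only at h1 h2 h3
        exfalso
        have h4 := hf.2.2.1
        have := hf.1 (by omega)
        omega
    | succ i ih =>
      intro hi
      have hprev := ih (by omega)
      obtain ⟨z, hz, h⟩ := hdom _ (col_pt j (i := 3 * i + 3) (by omega) (by omega))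
      have hf := facts (hZ z hz)
      rcases h with h | ⟨h1, h2, h3⟩ | ⟨h1, h2, h3⟩ | ⟨h1, h2, h3⟩
      · subst h
        have := hcol (a := 3 * i + 1) (b := 3 * i + 3) (by omega) (by omega) hprev hz (by omega)
        omega
      · simp only at h1 h2 h3
        have h4 : z = ((z.1, 3 * j.1 + 2, 4) : GP) := Prod.ext rfl (Prod.ext h2.symm h3.symm)
        rcases h1 with h1 | h1
        · have h5 : z.1 = 3 * i + 2 := by omega
          rw [h5] at h4
          rw [h4] at hz
          have := hcol (a := 3 * i + 1) (b := 3 * i + 2) (by omega) (by omega) hprev hz (by omega)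
          omega
        · have h5 : z.1 = 3 * (i + 1) + 1 := by omega
          rw [h5] at h4
          rw [h4] at hz
          exact hz
      · simp only at h1 h2 h3
        exfalso
        have := hf.2.1 (by omega)
        omega
      · simp only at h1 h2 h3
        exfalso
        have h4 := hf.2.2.1
        have h5 : z = ((3 * (i + 1), 3 * j.1 + 2, 3) : GP) :=
          Prod.ext (by simp only; omega) (Prod.ext h2.symm (by simp only; omega))
        rw [h5] at hz
        have hD := hZ _ hz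
        rcases hD with ⟨u, g1, g2, g3⟩ | ⟨j', g1, g2, g3, -⟩ | ⟨u, j', hA, g1, g2, g3, g4⟩
        · simp only at g3
          omega
        · simp only at g3
          omega
        · simp only at g1 g2
          have e1 : j' = j := Fin.ext (by omega)
          have e2 : u.1 = i := by omega
          rw [e1] at hA
          apply hcon u hA
          rw [e2]
          exact hz
  obtain ⟨z, hz, h⟩ := hdom _ (col_pt j (i := 3 * n + 3) (by omega) (by omega))
  have hprev := hstep n (by omega)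
  have hf := facts (hZ z hz)
  rcases h with h | ⟨h1, h2, h3⟩ | ⟨h1, h2, h3⟩ | ⟨h1, h2, h3⟩
  · subst h
    have := hcol (a := 3 * n + 1) (b := 3 * n + 3) (by omega) (by omega) hprev hz (by omega)
    omega
  · simp only at h1 h2 h3
    have h4 : z = ((z.1, 3 * j.1 + 2, 4) : GP) := Prod.ext rfl (Prod.ext h2.symm h3.symm)
    rcases h1 with h1 | h1
    · have h5 : z.1 = 3 * n + 2 := by omega
      rw [h5] at h4
      rw [h4] at hz
      have := hcol (a := 3 * n + 1) (b := 3 * n + 2) (by omega) (by omega) hprev hz (by omega)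
      omega
    · have := hf.2.2.2.1
      omega
  · simp only at h1 h2 h3
    have := hf.2.1 (by omega)
    omega
  · simp only at h1 h2 h3
    have h4 := hf.2.2.1
    have h5 : z = ((3 * (n + 1), 3 * j.1 + 2, 3) : GP) :=
      Prod.ext (by simp only; omega) (Prod.ext h2.symm (by simp only; omega))
    rw [h5] at hz
    have hD := hZ _ hz
    rcases hD with ⟨u, g1, g2, g3⟩ | ⟨j', g1, g2, g3, -⟩ | ⟨u, j', hA, g1, g2, g3, g4⟩
    · simp only at g3
      omega
    · simp only at g3
      omega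
    · simp only at g1 g2
      have e1 : j' = j := Fin.ext (by omega)
      have e2 : u.1 = n := by omega
      rw [e1] at hA
      apply hcon u hA
      rw [e2]
      exact hz

theorem con_card (hZ : ∀ z ∈ Z, DD n m A γ z)
    (hdom : ∀ p, DD n m A γ p → ∃ z ∈ Z, p = z ∨ GAdj p z) {u : Fin (n+1)} {j : Fin m}
    (hA : A u j = true) : 1 ≤ (E Z u.1 j.1).card := by
  obtain ⟨z, hz, h⟩ := hdom _ (con_pt hA (i := 2) (by omega) (by omega))
  have hf := facts (hZ z hz)
  refine Finset.card_pos.2 ⟨z, Finset.mem_filter.2 ⟨hz, ?_⟩⟩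
  rcases h with h | ⟨h1, h2, h3⟩ | ⟨h1, h2, h3⟩ | ⟨h1, h2, h3⟩
  · subst h
    exact ⟨⟨by simp only; omega, by simp only; omega⟩, rfl, rfl⟩
  · simp only at h1 h2 h3
    have := hf.1 (by omega)
    omega
  · simp only at h1 h2 h3
    have := hf.2.1 (by omega)
    omega
  · simp only at h1 h2 h3
    exact ⟨⟨by omega, by omega⟩, h1.symm, h2.symm⟩

theorem con_tap (hZ : ∀ z ∈ Z, DD n m A γ z)
    (hdom : ∀ p, DD n m A γ p → ∃ z ∈ Z, p = z ∨ GAdj p z) {u : Fin (n+1)} {j : Fin m}
    (hA : A u j = true) (hc : (E Z u.1 j.1).card ≤ 1)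
    (h3 : ((3 * (u.1 + 1), 3 * j.1 + 2, 3) : GP) ∈ Z) :
    ((3 * (u.1 + 1), 3 * j.1 + 2, 0) : GP) ∈ Z := by
  obtain ⟨z, hz, h⟩ := hdom _ (con_pt hA (i := 1) (by omega) (by omega))
  have hf := facts (hZ z hz)
  have hE3 : ((3 * (u.1 + 1), 3 * j.1 + 2, 3) : GP) ∈ E Z u.1 j.1 :=
    Finset.mem_filter.2 ⟨h3, ⟨by simp only; omega, by simp only; omega⟩, rfl, rfl⟩
  have key : z = ((3 * (u.1 + 1), 3 * j.1 + 2, z.2.2) : GP) ∧ z.2.2 ≤ 2 := by
    rcases h with h | ⟨h1, h2, h3⟩ | ⟨h1, h2, h3⟩ | ⟨h1, h2, h3⟩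
    · subst h
      exact ⟨rfl, by simp only; omega⟩
    · simp only at h1 h2 h3
      exfalso
      have := hf.1 (by omega)
      omega
    · simp only at h1 h2 h3
      exfalso
      have := hf.2.1 (by omega)
      omega
    · simp only at h1 h2 h3
      exact ⟨Prod.ext h1.symm (Prod.ext h2.symm rfl), by omega⟩
  by_cases h0 : z.2.2 = 0
  · rw [h0] at key
    rw [← key.1]
    exact hz
  · have hzE : z ∈ E Z u.1 j.1 := by
      rw [key.1]
      exact Finset.mem_filter.2 ⟨by rw [← key.1]; exact hz,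
        ⟨by simp only; omega, by simp only; omega⟩, rfl, rfl⟩
    have h4 := Finset.card_le_one.1 hc z hzE _ hE3
    have h5 := congrArg (fun p : GP => p.2.2) h4
    simp only at h5
    omega

theorem sum_card (Z : Finset GP) (n m : ℕ) (A : Fin (n+1) → Fin m → Bool) :
    (∑ u : Fin (n+1), (R Z u.1).card) + (∑ j : Fin m, (C Z j.1).card) +
      (∑ p ∈ Finset.univ.filter (fun p : Fin (n+1) × Fin m => A p.1 p.2 = true),
        (E Z p.1.1 p.2.1).card) ≤ Z.card := by
  classical
  have h1 : ((Finset.univ : Finset (Fin (n+1))).biUnion fun u => R Z u.1).card =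
      ∑ u : Fin (n+1), (R Z u.1).card := by
    refine Finset.card_biUnion fun u _ v _ huv => ?_
    refine Finset.disjoint_left.2 fun z hz hz' => huv (Fin.ext ?_)
    have a1 := (Finset.mem_filter.1 hz).2
    have a2 := (Finset.mem_filter.1 hz').2
    omega
  have h2 : ((Finset.univ : Finset (Fin m)).biUnion fun j => C Z j.1).card =
      ∑ j : Fin m, (C Z j.1).card := by
    refine Finset.card_biUnion fun u _ v _ huv => ?_
    refine Finset.disjoint_left.2 fun z hz hz' => huv (Fin.ext ?_)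
    have a1 := (Finset.mem_filter.1 hz).2
    have a2 := (Finset.mem_filter.1 hz').2
    omega
  have h3 : ((Finset.univ.filter (fun p : Fin (n+1) × Fin m => A p.1 p.2 = true)).biUnion
      fun p => E Z p.1.1 p.2.1).card =
      ∑ p ∈ Finset.univ.filter (fun p : Fin (n+1) × Fin m => A p.1 p.2 = true),
        (E Z p.1.1 p.2.1).card := by
    refine Finset.card_biUnion fun u _ v _ huv => ?_
    refine Finset.disjoint_left.2 fun z hz hz' => huv ?_
    have a1 := (Finset.mem_filter.1 hz).2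
    have a2 := (Finset.mem_filter.1 hz').2
    exact Prod.ext (Fin.ext (by omega)) (Fin.ext (by omega))
  rw [← h1, ← h2, ← h3, ← Finset.card_union_of_disjoint, ← Finset.card_union_of_disjoint]
  · refine Finset.card_le_card fun z hz => ?_
    rcases Finset.mem_union.1 hz with hz | hz
    · rcases Finset.mem_union.1 hz with hz | hz
      · obtain ⟨u, -, hz⟩ := Finset.mem_biUnion.1 hz
        exact (Finset.mem_filter.1 hz).1
      · obtain ⟨u, -, hz⟩ := Finset.mem_biUnion.1 hz
        exact (Finset.mem_filter.1 hz).1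
    · obtain ⟨u, -, hz⟩ := Finset.mem_biUnion.1 hz
      exact (Finset.mem_filter.1 hz).1
  · refine Finset.disjoint_left.2 fun z hz hz' => ?_
    obtain ⟨p, -, hp⟩ := Finset.mem_biUnion.1 hz'
    have a1 := (Finset.mem_filter.1 hp).2
    rcases Finset.mem_union.1 hz with hz | hz
    · obtain ⟨u, -, hz⟩ := Finset.mem_biUnion.1 hz
      have a2 := (Finset.mem_filter.1 hz).2
      omega
    · obtain ⟨u, -, hz⟩ := Finset.mem_biUnion.1 hz
      have a2 := (Finset.mem_filter.1 hz).2
      omega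
  · refine Finset.disjoint_left.2 fun z hz hz' => ?_
    obtain ⟨u, -, hz⟩ := Finset.mem_biUnion.1 hz
    obtain ⟨v, -, hz'⟩ := Finset.mem_biUnion.1 hz'
    have a1 := (Finset.mem_filter.1 hz).2
    have a2 := (Finset.mem_filter.1 hz').2
    omega

end LBAux

open LBAux

theorem hit_of_gdom (n m K : ℕ) (A : Fin (n+1) → Fin m → Bool) (γ : Fin m → Bool)
    (hne : ∀ j, ∃ u, A u j = true)
    (h : GDom (DD n m A γ) ((n + 1) * (m + 1) + m * (n + 1) + nA n m A + K)) :
    Hit n m A γ K := by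
  classical
  obtain ⟨Z, hcard, hZ, hdom⟩ := h
  choose pick hpick using hne
  obtain ⟨U1, hU1⟩ : ∃ U1 : Finset (Fin (n+1)), U1 =
    Finset.univ.filter fun u => m + 1 < (R Z u.1).card := ⟨_, rfl⟩
  obtain ⟨J2, hJ2⟩ : ∃ J2 : Finset (Fin m), J2 =
    Finset.univ.filter fun j => n + 1 < (C Z j.1).card := ⟨_, rfl⟩
  obtain ⟨P, hP⟩ : ∃ P : Finset (Fin (n+1) × Fin m), P =
    Finset.univ.filter fun p => A p.1 p.2 = true := ⟨_, rfl⟩
  obtain ⟨P3, hP3⟩ : ∃ P3 : Finset (Fin (n+1) × Fin m), P3 =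
    P.filter fun p => 1 < (E Z p.1.1 p.2.1).card := ⟨_, rfl⟩
  have s1 : (n + 1) * (m + 1) + U1.card ≤ ∑ u : Fin (n+1), (R Z u.1).card := by
    have h1 : ∀ u : Fin (n+1), (m + 1) + (if m + 1 < (R Z u.1).card then 1 else 0) ≤
        (R Z u.1).card := by
      intro u
      have := row_card hZ hdom u
      split_ifs <;> omega
    refine le_trans (le_of_eq ?_) (Finset.sum_le_sum fun u _ => h1 u)
    rw [Finset.sum_add_distrib, Finset.sum_const, Finset.card_univ, Fintype.card_fin, smul_eq_mul,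
      ← Finset.card_filter, hU1]
  have s2 : m * (n + 1) + J2.card ≤ ∑ j : Fin m, (C Z j.1).card := by
    have h1 : ∀ j : Fin m, (n + 1) + (if n + 1 < (C Z j.1).card then 1 else 0) ≤
        (C Z j.1).card := by
      intro j
      have := col_card hZ hdom j
      split_ifs <;> omega
    refine le_trans (le_of_eq ?_) (Finset.sum_le_sum fun j _ => h1 j)
    rw [Finset.sum_add_distrib, Finset.sum_const, Finset.card_univ, Fintype.card_fin, smul_eq_mul,
      ← Finset.card_filter, hJ2]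
  have s3 : nA n m A + P3.card ≤ ∑ p ∈ P, (E Z p.1.1 p.2.1).card := by
    have h1 : ∀ p ∈ P, 1 + (if 1 < (E Z p.1.1 p.2.1).card then 1 else 0) ≤
        (E Z p.1.1 p.2.1).card := by
      intro p hp
      rw [hP] at hp
      have := con_card hZ hdom (Finset.mem_filter.1 hp).2
      split_ifs <;> omega
    refine le_trans (le_of_eq ?_) (Finset.sum_le_sum h1)
    rw [Finset.sum_add_distrib, Finset.sum_const, smul_eq_mul, mul_one, ← Finset.card_filter, hP3,
      nA, hP]
  have s4 := sum_card Z n m A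
  rw [← hP] at s4
  have hsum : U1.card + J2.card + P3.card ≤ K := by omega
  refine ⟨U1 ∪ J2.image pick ∪ P3.image Prod.fst, ?_, ?_⟩
  · refine (Finset.card_union_le _ _).trans ?_
    have h1 := Finset.card_union_le U1 (J2.image pick)
    have h2 : (J2.image pick).card ≤ J2.card := Finset.card_image_le
    have h3 : (P3.image Prod.fst).card ≤ P3.card := Finset.card_image_le
    omega
  · intro j hj
    by_cases hc : n + 1 < (C Z j.1).card
    · refine ⟨pick j, ?_, hpick j⟩
      refine Finset.mem_union_left _ (Finset.mem_union_right _ (Finset.mem_image.2 ⟨j, ?_, rfl⟩))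
      rw [hJ2]
      exact Finset.mem_filter.2 ⟨Finset.mem_univ _, hc⟩
    · obtain ⟨u, hA, h3⟩ := col_hit hZ hdom j (by omega) hj
      refine ⟨u, ?_, hA⟩
      by_cases he : 1 < (E Z u.1 j.1).card
      · refine Finset.mem_union_right _ (Finset.mem_image.2 ⟨(u, j), ?_, rfl⟩)
        rw [hP3, hP]
        exact Finset.mem_filter.2 ⟨Finset.mem_filter.2 ⟨Finset.mem_univ _, hA⟩, he⟩
      · have htap := con_tap hZ hdom hA (by omega) h3
        refine Finset.mem_union_left _ (Finset.mem_union_left _ ?_)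
        rw [hU1]
        refine Finset.mem_filter.2 ⟨Finset.mem_univ _, ?_⟩
        by_contra hcon
        have := j.2
        exact row_no_tap hZ hdom u (by omega) j.1 (by omega) htap

end P65T
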