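import Pool.Agent.Lib.P65T.Star

/-!
Star functions and their negations are threshold functions with weights of absolute value at most
2; threshold functions are unate.
-/

namespace P65T

open P65

variable {ι : Type} [Fintype ι]

theorem thr_unate {g : (ι → Bool) → Bool} (h : IsThr g) : IsUnate g := by
  obtain ⟨w, t, h⟩ := h
  refine ⟨fun i => decide (0 ≤ w i), fun x y hxy hgx => ?_⟩
  rw [h] at hgx ⊢
  refine hgx.trans (Finset.sum_le_sum fun i _ => ?_)
  by_cases hw : 0 ≤ w i
  · rcases hxy i with h1 | h1
    · rw [h1]
    · have h2 : y i = true := by rw [h1]; exact decide_eq_true hw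
      rw [if_pos h2]
      split_ifs
      · exact le_refl _
      · exact hw
  · rcases hxy i with h1 | h1
    · rw [h1]
    · have h2 : y i = false := by rw [h1]; exact decide_eq_false hw
      rw [h2]
      simp only [Bool.false_eq_true, if_false]
      split_ifs
      · exact (not_le.1 hw).le
      · exact le_refl _

theorem thr_of_thr2 {g : (ι → Bool) → Bool} (h : IsThr2 g) : IsThr g := by
  obtain ⟨w, t, -, h⟩ := h
  refine ⟨fun i => (w i : ℝ), (t : ℝ), fun x => ?_⟩
  rw [h x]
  have e : (∑ i, if x i = true then ((w i : ℤ) : ℝ) else 0) =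
      ((∑ i, if x i = true then w i else 0 : ℤ) : ℝ) := by
    push_cast
    refine Finset.sum_congr rfl fun i _ => ?_
    split_ifs <;> simp
  rw [e]
  exact Int.cast_le.symm

private theorem key (c : ι → Bool) (J : Set ι) [DecidablePred (· ∈ J)] (x : ι → Bool) :
    (x = c ∨ ∃ i ∈ J, x i ≠ c i ∧ ∀ j, j ≠ i → x j = c j) ↔
      (∑ i, if x i = c i then (0 : ℤ) else if i ∈ J then 1 else 2) ≤ 1 := by
  classical
  have hnn : ∀ i, 0 ≤ (if x i = c i then (0 : ℤ) else if i ∈ J then 1 else 2) := by
    intro i
    split_ifs <;> norm_num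
  constructor
  · rintro (h | ⟨i, hi, h1, h2⟩)
    · rw [h]
      simp
    · rw [Finset.sum_eq_single i]
      · rw [if_neg h1, if_pos hi]
      · intro j _ hj
        rw [if_pos (h2 j hj)]
      · intro h
        exact absurd (Finset.mem_univ i) h
  · intro h
    by_cases hxc : x = c
    · exact Or.inl hxc
    · right
      have : ∃ i, x i ≠ c i := by
        by_contra hcon
        simp only [not_exists, not_not] at hcon
        exact hxc (funext hcon)
      obtain ⟨i, hi⟩ := this
      have h1 : (if x i = c i then (0 : ℤ) else if i ∈ J then 1 else 2) ≤ 1 :=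
        (Finset.single_le_sum (fun j _ => hnn j) (Finset.mem_univ i)).trans h
      have hiJ : i ∈ J := by
        by_contra hcon
        rw [if_neg hi, if_neg hcon] at h1
        norm_num at h1
      refine ⟨i, hiJ, hi, fun j hj => ?_⟩
      by_contra hcon
      have h2 : ∑ k ∈ ({i, j} : Finset ι), (if x k = c k then (0 : ℤ) else if k ∈ J then 1 else 2)
          ≤ 1 := (Finset.sum_le_sum_of_subset_of_nonneg (Finset.subset_univ _)
        fun k _ _ => hnn k).trans h
      rw [Finset.sum_pair (Ne.symm hj), if_neg hi, if_neg hcon, if_pos hiJ] at h2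
      split_ifs at h2 <;> norm_num at h2

/-- A linear function of the disagreements with `c` is a linear function of `x`. -/
private theorem affine (c : ι → Bool) (v : ι → ℤ) (x : ι → Bool) :
    (∑ i, if x i = c i then (0 : ℤ) else v i) =
      (∑ i, if c i = true then v i else 0) +
        ∑ i, if x i = true then (if c i = true then -v i else v i) else 0 := by
  rw [← Finset.sum_add_distrib]
  refine Finset.sum_congr rfl fun i _ => ?_
  cases x i <;> cases c i <;> simp

theorem star_thr2_bnot {g : (ι → Bool) → Bool} (h : IsStar g) : IsThr2 (bnot g) := by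
  classical
  obtain ⟨c, J, h⟩ := h
  obtain ⟨v, hv⟩ : ∃ v : ι → ℤ, v = fun i => if i ∈ J then 1 else 2 := ⟨_, rfl⟩
  refine ⟨fun i => if c i = true then -v i else v i, 2 - ∑ i, (if c i = true then v i else 0),
    fun i => ?_, fun x => ?_⟩
  · rw [hv]
    show |if c i = true then -(if i ∈ J then (1 : ℤ) else 2) else (if i ∈ J then 1 else 2)| ≤ 2
    split_ifs <;> norm_num
  · have h1 : bnot g x = true ↔ ¬ (g x = true) := by
      unfold bnot
      cases g x <;> simp
    rw [h1, h x, key c J x]
    have h2 := affine c v x
    have h3 : (∑ i, if x i = c i then (0 : ℤ) else if i ∈ J then 1 else 2) =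
        ∑ i, if x i = c i then (0 : ℤ) else v i := by rw [hv]
    show _ ↔ _ ≤ ∑ i, if x i = true then (if c i = true then -v i else v i) else 0
    rw [h3]
    omega

theorem star_thr2 {g : (ι → Bool) → Bool} (h : IsStar g) : IsThr2 g := by
  classical
  obtain ⟨c, J, h⟩ := h
  obtain ⟨v, hv⟩ : ∃ v : ι → ℤ, v = fun i => if i ∈ J then 1 else 2 := ⟨_, rfl⟩
  refine ⟨fun i => -(if c i = true then -v i else v i),
    (∑ i, (if c i = true then v i else 0)) - 1, fun i => ?_, fun x => ?_⟩
  · rw [hv]
    show |-(if c i = true then -(if i ∈ J then (1 : ℤ) else 2) else (if i ∈ J then 1 else 2))| ≤ 2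
    split_ifs <;> norm_num
  · rw [h x, key c J x]
    have h2 := affine c v x
    have h3 : (∑ i, if x i = c i then (0 : ℤ) else if i ∈ J then 1 else 2) =
        ∑ i, if x i = c i then (0 : ℤ) else v i := by rw [hv]
    have h4 : (∑ i, if x i = true then -(if c i = true then -v i else v i) else 0) =
        -∑ i, if x i = true then (if c i = true then -v i else v i) else 0 := by
      rw [← Finset.sum_neg_distrib]
      refine Finset.sum_congr rfl fun i _ => ?_
      split_ifs <;> simp
    rw [h3, h2, h4]
    omega

theorem star_thr_bnot {g : (ι → Bool) → Bool} (h : IsStar g) : IsThr (bnot g) :=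
  thr_of_thr2 (star_thr2_bnot h)

theorem star_thr {g : (ι → Bool) → Bool} (h : IsStar g) : IsThr g :=
  thr_of_thr2 (star_thr2 h)

theorem thr2_unate {g : (ι → Bool) → Bool} (h : IsThr2 g) : IsUnate g :=
  thr_unate (thr_of_thr2 h)

end P65T
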